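import Pool.Agent.K4H27.FH.Family

/-!
# The block structure of the tuples killed by all conjugates of the sawtooth function
-/

namespace Pool.Agent.K4H27.FH

open Finset Pool.Agent.H916R2

lemma sum_range_ite {N p d : ℕ} [NeZero N] (hp : 0 < p) (hpd : p * d = N) (y : ZMod N)
    {Q : Type*} [AddCommGroup Q] (v : Q) :
    ∑ i ∈ range p, (if y = (i : ZMod N) * (d : ZMod N) then v else 0) =
      if (p : ZMod N) * y = 0 then v else 0 := by
  have hd : 0 < d := Nat.pos_of_ne_zero (by
    rintro rfl
    exact NeZero.ne N (by rw [← hpd, mul_zero]))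
  by_cases h : (p : ZMod N) * y = 0
  · rw [if_pos h]
    have h1 : N ∣ p * y.val := by
      rw [← ZMod.natCast_eq_zero_iff]; push_cast; rw [ZMod.natCast_zmod_val]; exact h
    have h1' : p * d ∣ p * y.val := by rw [hpd]; exact h1
    obtain ⟨j, hj⟩ := Nat.dvd_of_mul_dvd_mul_left hp h1'
    have hjp : j < p := by
      have h2 := ZMod.val_lt y
      have h3 : d * j < d * p := by rw [← hj, mul_comm d p, hpd]; exact h2
      exact Nat.lt_of_mul_lt_mul_left h3
    have hy : y = (j : ZMod N) * (d : ZMod N) := by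
      calc y = ((y.val : ℕ) : ZMod N) := (ZMod.natCast_zmod_val y).symm
        _ = _ := by rw [hj]; push_cast; ring
    rw [Finset.sum_eq_single j]
    · rw [if_pos hy]
    · intro i hi hij
      rw [if_neg]
      intro h2
      apply hij
      rw [mem_range] at hi
      have h3 : ((i * d : ℕ) : ZMod N) = ((j * d : ℕ) : ZMod N) := by
        push_cast; rw [← h2, ← hy]
      rw [ZMod.natCast_eq_natCast_iff', Nat.mod_eq_of_lt, Nat.mod_eq_of_lt] at h3
      · exact Nat.eq_of_mul_eq_mul_right hd h3
      · rw [← hpd]; exact Nat.mul_lt_mul_of_pos_right hjp hd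
      · rw [← hpd]; exact Nat.mul_lt_mul_of_pos_right hi hd
    · intro h2
      exact absurd (mem_range.2 hjp) h2
  · rw [if_neg h]
    refine Finset.sum_eq_zero fun i _ => ?_
    rw [if_neg]
    intro h2
    apply h
    rw [h2]
    have h3 : (p : ZMod N) * (d : ZMod N) = 0 := by
      have h4 : ((p * d : ℕ) : ZMod N) = 0 := by rw [hpd]; simp
      simpa using h4
    linear_combination (i : ZMod N) * h3

/-- The distribution relation for all divisors. -/
lemma dist_general {N : ℕ} [NeZero N] {Q : Type*} [AddCommGroup Q] {c : ZMod N → Q}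
    (hc : OddDist c) : ∀ n : ℕ, n ∣ N → ∀ θ0 : ZMod N,
    ∑ θ : ZMod N, (if (n : ZMod N) * θ = (n : ZMod N) * θ0 then c θ else 0) =
      c ((n : ZMod N) * θ0) := by
  intro n
  induction n using Nat.strong_induction_on with
  | _ n ih =>
  intro hn θ0
  have hn0 : n ≠ 0 := by
    rintro rfl
    exact NeZero.ne N (Nat.eq_zero_of_zero_dvd hn)
  by_cases hn1 : n = 1
  · subst hn1
    simp
  · have hp := Nat.minFac_prime hn1
    set p := n.minFac with hpdef
    obtain ⟨n', hn'⟩ : p ∣ n := Nat.minFac_dvd n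
    have hn'0 : 0 < n' := Nat.pos_of_ne_zero (by rintro rfl; simp at hn'; exact hn0 hn')
    have hlt : n' < n := by
      rw [hn']
      have := hp.two_le
      nlinarith
    obtain ⟨e, he⟩ := hn
    have hpd : p * (n' * e) = N := by rw [he, hn']; ring
    have hnN : n' ∣ N := ⟨p * e, by rw [← hpd]; ring⟩
    have h1 : ∀ θ : ZMod N, (if (n : ZMod N) * θ = (n : ZMod N) * θ0 then c θ else 0) =
        ∑ i ∈ range p, (if (n' : ZMod N) * θ = (n' : ZMod N) * (θ0 + (i : ZMod N) * (e : ZMod N))
          then c θ else 0) := by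
      intro θ
      have h2 := sum_range_ite hp.pos hpd ((n' : ZMod N) * θ - (n' : ZMod N) * θ0) (c θ)
      have h3 : ((p : ZMod N) * ((n' : ZMod N) * θ - (n' : ZMod N) * θ0) = 0) ↔
          ((n : ZMod N) * θ = (n : ZMod N) * θ0) := by
        rw [hn', ← sub_eq_zero]
        push_cast
        constructor
        · intro h; linear_combination h
        · intro h; linear_combination h
      have h4 : (if (n : ZMod N) * θ = (n : ZMod N) * θ0 then c θ else 0) =
          (if ((p : ZMod N) * ((n' : ZMod N) * θ - (n' : ZMod N) * θ0) = 0) then c θ else 0) := by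
        simp only [h3]
      rw [h4, ← h2]
      refine Finset.sum_congr rfl fun i _ => ?_
      have h5 : ((n' : ZMod N) * θ - (n' : ZMod N) * θ0 = (i : ZMod N) * ((n' * e : ℕ) : ZMod N)) ↔
          ((n' : ZMod N) * θ = (n' : ZMod N) * (θ0 + (i : ZMod N) * (e : ZMod N))) := by
        push_cast
        constructor
        · intro h; linear_combination h
        · intro h; linear_combination h
      simp only [h5]
    rw [Finset.sum_congr rfl fun θ _ => h1 θ, Finset.sum_comm]
    rw [Finset.sum_congr rfl fun (i : ℕ) _ => ih n' hlt hnN (θ0 + (i : ZMod N) * (e : ZMod N))]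
    have h6 := hc.dist p (n' * e) hp hpd ((n' : ZMod N) * θ0)
    have h7 : (n : ZMod N) * θ0 = (p : ZMod N) * ((n' : ZMod N) * θ0) := by
      rw [hn']; push_cast; ring
    rw [h7, ← h6]
    refine Finset.sum_congr rfl fun i _ => ?_
    congr 1
    push_cast
    ring

variable {ι : Type}

/-- **Blocks are killed by all odd distributions.** -/
lemma block_sum {N : ℕ} [NeZero N] (I : Finset ι) (b : ι → ZMod N) (κ : ι → ℤ)
    (hj : ∀ θ : ZMod N, ∑ i ∈ I, (if (κ i : ZMod N) * θ = b i then (SignType.sign (κ i) : ℤ)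
      else 0) = 0)
    (hdiv : ∀ i ∈ I, κ i ≠ 0 → (κ i).natAbs ∣ N ∧ ∃ θ : ZMod N, (κ i : ZMod N) * θ = b i)
    {Q : Type*} [AddCommGroup Q] {c : ZMod N → Q} (hc : OddDist c) :
    ∑ i ∈ I.filter (fun i => κ i ≠ 0), c (b i) = 0 := by
  classical
  have h1 : ∑ θ : ZMod N, (∑ i ∈ I, (if (κ i : ZMod N) * θ = b i then (SignType.sign (κ i) : ℤ)
      else 0)) • c θ = 0 := Finset.sum_eq_zero fun θ _ => by rw [hj, zero_smul]
  simp only [Finset.sum_smul] at h1
  rw [Finset.sum_comm] at h1
  rw [← h1, Finset.sum_filter]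
  refine Finset.sum_congr rfl fun i hi => ?_
  by_cases h0 : κ i = 0
  · rw [if_neg (by simpa using h0), h0]
    simp
  · rw [if_pos h0]
    obtain ⟨h2, θ0, h3⟩ := hdiv i hi h0
    have h4 := dist_general hc _ h2 θ0
    rcases lt_or_gt_of_ne h0 with h | h
    · have h5 : κ i = -((κ i).natAbs : ℤ) := by rw [Int.ofNat_natAbs_of_nonpos h.le, neg_neg]
      have h6 : (κ i : ZMod N) = -((κ i).natAbs : ZMod N) := by
        conv_lhs => rw [h5]
        rw [Int.cast_neg, Int.cast_natCast]
      have h7 : ∀ θ : ZMod N, ((κ i : ZMod N) * θ = b i) ↔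
          (((κ i).natAbs : ZMod N) * θ = ((κ i).natAbs : ZMod N) * θ0) := by
        intro θ
        rw [← h3, h6, neg_mul, neg_mul, neg_inj]
      simp only [h7]
      rw [← h3, h6, neg_mul, hc.neg, ← h4, ← Finset.sum_neg_distrib]
      refine Finset.sum_congr rfl fun θ _ => ?_
      rw [sign_neg h]
      split_ifs with h8
      · simp
      · simp
    · have h5 : κ i = ((κ i).natAbs : ℤ) := by rw [Int.natAbs_of_nonneg h.le]
      have h6 : (κ i : ZMod N) = ((κ i).natAbs : ZMod N) := by
        conv_lhs => rw [h5]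
        exact Int.cast_natCast _
      have h7 : ∀ θ : ZMod N, ((κ i : ZMod N) * θ = b i) ↔
          (((κ i).natAbs : ZMod N) * θ = ((κ i).natAbs : ZMod N) * θ0) := by
        intro θ
        rw [← h3, h6]
      simp only [h7]
      rw [← h3, h6, ← h4]
      refine Finset.sum_congr rfl fun θ _ => ?_
      rw [sign_pos h]
      split_ifs with h8
      · simp
      · simp

end Pool.Agent.K4H27.FH
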