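import Pool.Agent.K4H27.FH.Struct

/-!
# Counting
-/

namespace Pool.Agent.K4H27.FH

open Finset Pool.Agent.H916R2

lemma card_solutions_le {m : ℕ} [NeZero m] (e : ℤ) (he : e ≠ 0) (y : ZMod m) :
    (Finset.univ.filter fun x : ZMod m => (e : ZMod m) * x = y).card ≤ e.natAbs := by
  classical
  rcases (Finset.univ.filter fun x : ZMod m => (e : ZMod m) * x = y).eq_empty_or_nonempty with h | h
  · rw [h]; simp
  · obtain ⟨x0, hx0⟩ := h
    rw [mem_filter] at hx0
    have h1 : (Finset.univ.filter fun x : ZMod m => e.natAbs • x = 0).card ≤ e.natAbs :=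
      IsAddCyclic.card_nsmul_eq_zero_le (Int.natAbs_pos.2 he)
    refine le_trans ?_ h1
    refine Finset.card_le_card_of_injOn (fun x => x - x0) ?_ ?_
    · intro x hx
      rw [Finset.mem_coe, mem_filter] at hx
      rw [Finset.mem_coe, mem_filter]
      refine ⟨mem_univ _, ?_⟩
      have h2 : (e : ZMod m) * (x - x0) = 0 := by rw [mul_sub, hx.2, hx0.2, sub_self]
      rw [nsmul_eq_mul]
      rcases Int.natAbs_eq e with h3 | h3
      · rw [h3, Int.cast_natCast] at h2
        exact h2
      · rw [h3, Int.cast_neg, Int.cast_natCast, neg_mul, neg_eq_zero] at h2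
        exact h2
    · intro x _ y _ h
      exact sub_left_injective h

/-- The number of tuples with few classes. -/
lemma count (k L r : ℕ) (hL : 0 < L) : ∃ C : ℕ, ∀ (m : ℕ) [NeZero m] (S : Set (Fin k → ZMod m)),
    (∀ a ∈ S, ∃ (J : Finset (Fin k)) (e : Fin k → ℤ) (g : Fin k → ℕ × ZMod m),
      (∀ i ∈ J, e i ≠ 0 ∧ |e i| ≤ L ∧ (g i).2 = (e i : ZMod m) * a i) ∧
      (∀ i, i ∉ J → L • a i = 0) ∧ (J.image g).card ≤ r) → S.ncard ≤ C * m ^ r := by
  classical
  set E : Finset (Fin k → ℤ) := Fintype.piFinset fun _ => (Finset.Icc (-(L : ℤ)) L).erase 0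
    with hE
  refine ⟨E.card * ((Finset.univ : Finset (Fin k → Option (Fin r))).card * L ^ k), ?_⟩
  intro m _ S hS
  set T : Finset (Fin k → ZMod m) := E.biUnion fun e =>
    (Finset.univ : Finset (Fin k → Option (Fin r))).biUnion fun φ =>
      (Finset.univ : Finset (Fin r → ZMod m)).biUnion fun v =>
        Fintype.piFinset fun i => Finset.univ.filter fun x : ZMod m =>
          (e i : ZMod m) * x = (φ i).elim 0 v with hT
  have hsub : S ⊆ (T : Set (Fin k → ZMod m)) := by
    intro a ha
    obtain ⟨J, e, g, h1, h2, h3⟩ := hS a ha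
    set Eq := (J.image g).equivFin with hEq
    set e' : Fin k → ℤ := fun i => if i ∈ J then e i else L with he'
    set φ : Fin k → Option (Fin r) := fun i => if h : i ∈ J then
      some (Fin.castLE h3 (Eq ⟨g i, Finset.mem_image_of_mem g h⟩)) else none with hφ
    set v : Fin r → ZMod m := fun j => if h : (j : ℕ) < (J.image g).card then
      ((Eq.symm ⟨j, h⟩ : {x // x ∈ J.image g}) : ℕ × ZMod m).2 else 0 with hv
    rw [hT, Finset.mem_coe, Finset.mem_biUnion]
    refine ⟨e', ?_, ?_⟩
    · rw [hE, Fintype.mem_piFinset]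
      intro i
      rw [Finset.mem_erase, Finset.mem_Icc]
      by_cases hi : i ∈ J
      · have h4 : e' i = e i := by rw [he']; exact if_pos hi
        rw [h4]
        exact ⟨(h1 i hi).1, abs_le.1 (h1 i hi).2.1⟩
      · have h4 : e' i = L := by rw [he']; exact if_neg hi
        rw [h4]
        omega
    · rw [Finset.mem_biUnion]
      refine ⟨φ, mem_univ _, ?_⟩
      rw [Finset.mem_biUnion]
      refine ⟨v, mem_univ _, ?_⟩
      rw [Fintype.mem_piFinset]
      intro i
      rw [mem_filter]
      refine ⟨mem_univ _, ?_⟩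
      by_cases hi : i ∈ J
      · have h4 : e' i = e i := by rw [he']; exact if_pos hi
        have h5 : φ i = some (Fin.castLE h3 (Eq ⟨g i, Finset.mem_image_of_mem g hi⟩)) := by
          rw [hφ]; exact dif_pos hi
        rw [h4, h5, ← (h1 i hi).2.2]
        have h6 : v (Fin.castLE h3 (Eq ⟨g i, Finset.mem_image_of_mem g hi⟩)) = (g i).2 := by
          have h7 : ((Fin.castLE h3 (Eq ⟨g i, Finset.mem_image_of_mem g hi⟩) : Fin r) : ℕ) <
              (J.image g).card := by
            rw [Fin.val_castLE]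
            exact (Eq ⟨g i, Finset.mem_image_of_mem g hi⟩).2
          have h8 : v (Fin.castLE h3 (Eq ⟨g i, Finset.mem_image_of_mem g hi⟩)) =
              ((Eq.symm (Eq ⟨g i, Finset.mem_image_of_mem g hi⟩) : {x // x ∈ J.image g}) :
                ℕ × ZMod m).2 := by
            rw [hv]; exact dif_pos h7
          rw [h8, Equiv.symm_apply_apply]
        rw [← h6]; rfl
      · have h4 : e' i = L := by rw [he']; exact if_neg hi
        have h5 : φ i = none := by rw [hφ]; exact dif_neg hi
        rw [h4, h5]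
        have h6 := h2 i hi
        rw [nsmul_eq_mul] at h6
        rw [Int.cast_natCast, h6]; rfl
  have hcard : T.card ≤ E.card * ((Finset.univ : Finset (Fin k → Option (Fin r))).card *
      (m ^ r * L ^ k)) := by
    refine Finset.card_biUnion_le_card_mul _ _ _ fun e he => ?_
    refine Finset.card_biUnion_le_card_mul _ _ _ fun φ _ => ?_
    have h0 : m ^ r = (Finset.univ : Finset (Fin r → ZMod m)).card := by
      rw [Finset.card_univ, Fintype.card_fun, ZMod.card, Fintype.card_fin]
    rw [h0]
    refine Finset.card_biUnion_le_card_mul _ _ _ fun v _ => ?_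
    rw [Fintype.card_piFinset]
    calc ∏ i : Fin k, (Finset.univ.filter fun x : ZMod m =>
          (e i : ZMod m) * x = (φ i).elim 0 v).card ≤ ∏ _i : Fin k, L := by
          refine Finset.prod_le_prod' fun i _ => ?_
          rw [hE, Fintype.mem_piFinset] at he
          have h1 := he i
          rw [Finset.mem_erase, Finset.mem_Icc] at h1
          refine (card_solutions_le (e i) h1.1 _).trans ?_
          have h2 : ((e i).natAbs : ℤ) ≤ L := by
            rw [← Int.abs_eq_natAbs]; exact abs_le.2 h1.2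
          exact_mod_cast h2
      _ = L ^ k := by rw [Finset.prod_const, Finset.card_univ, Fintype.card_fin]
  calc S.ncard ≤ (T : Set (Fin k → ZMod m)).ncard := Set.ncard_le_ncard hsub T.finite_toSet
    _ = T.card := Set.ncard_coe_finset T
    _ ≤ _ := hcard
    _ = _ := by ring

/-- the number of classes -/
lemma two_mul_card_image_le {k : ℕ} {α : Type*} [DecidableEq α] (J : Finset (Fin k))
    (g : Fin k → α) (h : ∀ i ∈ J, ∃ j ∈ J, j ≠ i ∧ g j = g i) :
    2 * (J.image g).card ≤ J.card := by
  rw [Finset.card_eq_sum_card_image g J, mul_comm, ← smul_eq_mul, ← Finset.sum_const]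
  refine Finset.sum_le_sum fun b hb => ?_
  obtain ⟨i, hi, rfl⟩ := Finset.mem_image.1 hb
  obtain ⟨j, hj, hne, hji⟩ := h i hi
  have h1 : ({i, j} : Finset (Fin k)) ⊆ J.filter fun x => g x = g i := by
    intro x hx
    rw [Finset.mem_insert, Finset.mem_singleton] at hx
    rcases hx with rfl | rfl
    · exact mem_filter.2 ⟨hi, rfl⟩
    · exact mem_filter.2 ⟨hj, hji⟩
  have h2 := Finset.card_le_card h1
  rwa [Finset.card_pair hne.symm] at h2

/-- the number of classes, if one of the classes has at least three elements -/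
lemma two_mul_card_image_lt {k : ℕ} {α : Type*} [DecidableEq α] (J : Finset (Fin k))
    (g : Fin k → α) (h : ∀ i ∈ J, ∃ j ∈ J, j ≠ i ∧ g j = g i)
    (h3 : ∃ i ∈ J, ∃ j ∈ J, ∃ l ∈ J, j ≠ i ∧ l ≠ i ∧ l ≠ j ∧ g j = g i ∧ g l = g i) :
    2 * (J.image g).card < J.card := by
  rw [Finset.card_eq_sum_card_image g J, mul_comm, ← smul_eq_mul, ← Finset.sum_const]
  obtain ⟨i0, hi0, j0, hj0, l0, hl0, h4, h5, h6, h7, h8⟩ := h3
  refine Finset.sum_lt_sum (fun b hb => ?_) ⟨g i0, Finset.mem_image_of_mem g hi0, ?_⟩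
  · obtain ⟨i, hi, rfl⟩ := Finset.mem_image.1 hb
    obtain ⟨j, hj, hne, hji⟩ := h i hi
    have h1 : ({i, j} : Finset (Fin k)) ⊆ J.filter fun x => g x = g i := by
      intro x hx
      rw [Finset.mem_insert, Finset.mem_singleton] at hx
      rcases hx with rfl | rfl
      · exact mem_filter.2 ⟨hi, rfl⟩
      · exact mem_filter.2 ⟨hj, hji⟩
    have h2 := Finset.card_le_card h1
    rwa [Finset.card_pair hne.symm] at h2
  · have h1 : ({i0, j0, l0} : Finset (Fin k)) ⊆ J.filter fun x => g x = g i0 := by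
      intro x hx
      rw [Finset.mem_insert, Finset.mem_insert, Finset.mem_singleton] at hx
      rcases hx with rfl | rfl | rfl
      · exact mem_filter.2 ⟨hi0, rfl⟩
      · exact mem_filter.2 ⟨hj0, h7⟩
      · exact mem_filter.2 ⟨hl0, h8⟩
    have h2 := Finset.card_le_card h1
    rw [Finset.card_eq_three.2 ⟨i0, j0, l0, h4.symm, h5.symm, h6.symm, rfl⟩] at h2
    omega

end Pool.Agent.K4H27.FH
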