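import Pool.Agent.K4H27.FH.Raman

/-!
# Equidistribution of the Galois orbits of torsion points of tori
-/

namespace Pool.Agent.K4H27.FH

open Finset Filter Topology

set_option linter.unusedSectionVars false

variable {ι : Type} [Fintype ι]

/-- The pairing of a character and a point of the torus. -/
noncomputable def dot (c : ι → ℤ) (x : UnitAddTorus ι) : UnitAddCircle := ∑ i, c i • x i

lemma dot_add (c : ι → ℤ) (x y : UnitAddTorus ι) : dot c (x + y) = dot c x + dot c y := by
  unfold dot
  rw [← Finset.sum_add_distrib]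
  exact Finset.sum_congr rfl fun i _ => smul_add _ _ _

lemma dot_sub (c : ι → ℤ) (x y : UnitAddTorus ι) : dot c (x - y) = dot c x - dot c y := by
  unfold dot
  rw [← Finset.sum_sub_distrib]
  exact Finset.sum_congr rfl fun i _ => smul_sub _ _ _

lemma dot_nsmul (n : ℕ) (c : ι → ℤ) (x : UnitAddTorus ι) : dot c (n • x) = n • dot c x := by
  unfold dot
  rw [Finset.smul_sum]
  exact Finset.sum_congr rfl fun i _ => by rw [Pi.smul_apply, smul_comm]

lemma add_dot (c d : ι → ℤ) (x : UnitAddTorus ι) : dot (c + d) x = dot c x + dot d x := by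
  unfold dot
  rw [← Finset.sum_add_distrib]
  exact Finset.sum_congr rfl fun i _ => add_smul _ _ _

lemma zero_dot (x : UnitAddTorus ι) : dot 0 x = 0 := by
  unfold dot
  exact Finset.sum_eq_zero fun i _ => zero_smul _ _

lemma smul_dot (n : ℤ) (c : ι → ℤ) (x : UnitAddTorus ι) : dot (n • c) x = n • dot c x := by
  unfold dot
  rw [Finset.smul_sum]
  exact Finset.sum_congr rfl fun i _ => by rw [Pi.smul_apply, smul_eq_mul, mul_smul]

lemma continuous_dot (c : ι → ℤ) : Continuous (dot c) := by
  unfold dot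
  fun_prop

lemma chi_sum {κ : Type} (s : Finset κ) (f : κ → UnitAddCircle) :
    chi (∑ i ∈ s, f i) = ∏ i ∈ s, chi (f i) := by
  classical
  induction s using Finset.induction_on with
  | empty => simp [chi_zero]
  | insert a s ha ih => rw [Finset.sum_insert ha, Finset.prod_insert ha, chi_add, ih]

lemma mFourier_eq (c : ι → ℤ) (x : UnitAddTorus ι) : UnitAddTorus.mFourier c x = chi (dot c x) := by
  unfold dot
  rw [chi_sum]
  change ∏ i, fourier (c i) (x i) = _
  refine Finset.prod_congr rfl fun i _ => ?_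
  rw [fourier_apply]
  rfl

/-- The average of a function over the Galois orbit of a torsion point. -/
noncomputable def avg (N : ℕ) [NeZero N] (α : UnitAddTorus ι) (f : C(UnitAddTorus ι, ℂ)) : ℂ :=
  (∑ t : (ZMod N)ˣ, f ((t : ZMod N).val • α)) / N.totient

lemma totient_pos' (N : ℕ) [NeZero N] : (0 : ℝ) < N.totient := by
  exact_mod_cast Nat.totient_pos.2 (Nat.pos_of_ne_zero (NeZero.ne N))

lemma avg_add (N : ℕ) [NeZero N] (α : UnitAddTorus ι) (f g : C(UnitAddTorus ι, ℂ)) :
    avg N α (f + g) = avg N α f + avg N α g := by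
  unfold avg
  rw [← add_div, ← Finset.sum_add_distrib]
  rfl

lemma avg_smul (N : ℕ) [NeZero N] (α : UnitAddTorus ι) (a : ℂ) (f : C(UnitAddTorus ι, ℂ)) :
    avg N α (a • f) = a * avg N α f := by
  unfold avg
  rw [mul_div_assoc', Finset.mul_sum]
  rfl

lemma avg_sub (N : ℕ) [NeZero N] (α : UnitAddTorus ι) (f g : C(UnitAddTorus ι, ℂ)) :
    avg N α (f - g) = avg N α f - avg N α g := by
  unfold avg
  rw [← sub_div, ← Finset.sum_sub_distrib]
  rfl

lemma norm_avg_le (N : ℕ) [NeZero N] (α : UnitAddTorus ι) (f : C(UnitAddTorus ι, ℂ)) :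
    ‖avg N α f‖ ≤ ‖f‖ := by
  have h0 := totient_pos' N
  unfold avg
  rw [norm_div, Complex.norm_natCast, div_le_iff₀ h0]
  refine (norm_sum_le _ _).trans ?_
  refine (Finset.sum_le_sum fun t _ => f.norm_coe_le_norm _).trans ?_
  rw [Finset.sum_const, Finset.card_univ, ZMod.card_units_eq_totient, nsmul_eq_mul, mul_comm]

lemma norm_avg_mFourier (N : ℕ) [NeZero N] (α : UnitAddTorus ι) (hα : N • α = 0) (c : ι → ℤ) :
    ‖avg N α (UnitAddTorus.mFourier c)‖ * (addOrderOf (dot c α)).totient ≤ 1 := by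
  have h0 := totient_pos' N
  have h1 : N • dot c α = 0 := by
    rw [← dot_nsmul, hα]
    unfold dot
    exact Finset.sum_eq_zero fun i _ => smul_zero _
  have h2 := norm_orbit_sum_le N (dot c α) h1
  unfold avg
  rw [norm_div, Complex.norm_natCast, div_mul_eq_mul_div, div_le_one h0]
  refine le_trans (le_of_eq ?_) h2
  congr 2
  refine Finset.sum_congr rfl fun t _ => ?_
  rw [mFourier_eq, dot_nsmul]

/-- The translate of a function. -/
noncomputable def shift (g : UnitAddTorus ι) (f : C(UnitAddTorus ι, ℂ)) : C(UnitAddTorus ι, ℂ) :=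
  ⟨fun x => f (x + g), by fun_prop⟩

lemma shift_apply (g x : UnitAddTorus ι) (f : C(UnitAddTorus ι, ℂ)) : shift g f x = f (x + g) := rfl

lemma norm_shift_le (g : UnitAddTorus ι) (f : C(UnitAddTorus ι, ℂ)) : ‖shift g f‖ ≤ ‖f‖ := by
  rw [ContinuousMap.norm_le _ (norm_nonneg f)]
  intro x
  exact f.norm_coe_le_norm _

lemma shift_mFourier (g : UnitAddTorus ι) (c : ι → ℤ) :
    shift g (UnitAddTorus.mFourier c) = chi (dot c g) • UnitAddTorus.mFourier c := by
  ext x
  rw [shift_apply, mFourier_eq, dot_add, chi_add, ContinuousMap.smul_apply, mFourier_eq, smul_eq_mul,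
    mul_comm]

/-- **Invariance of the limit distribution.** -/
theorem tendsto_avg_sub (𝒰 : Filter ℕ) (N : ℕ → ℕ) [∀ n, NeZero (N n)]
    (α : ℕ → UnitAddTorus ι) (hα : ∀ n, N n • α n = 0) (g : UnitAddTorus ι)
    (hg : ∀ c : ι → ℤ, dot c g = 0 ∨ ∀ Q : ℕ, ∀ᶠ n in 𝒰, Q < addOrderOf (dot c (α n)))
    (f : C(UnitAddTorus ι, ℂ)) :
    Tendsto (fun n => avg (N n) (α n) f - avg (N n) (α n) (shift g f)) 𝒰 (𝓝 0) := by
  have hspan : ∀ P ∈ Submodule.span ℂ (Set.range (UnitAddTorus.mFourier (d := ι))),
      Tendsto (fun n => avg (N n) (α n) P - avg (N n) (α n) (shift g P)) 𝒰 (𝓝 0) := by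
    intro P hP
    induction hP using Submodule.span_induction with
    | mem P hP =>
      obtain ⟨c, rfl⟩ := hP
      rw [shift_mFourier]
      simp only [avg_smul]
      rcases hg c with h | h
      · rw [h, chi_zero]
        simp only [one_mul, sub_self]
        exact tendsto_const_nhds
      · have h1 : Tendsto (fun n => avg (N n) (α n) (UnitAddTorus.mFourier c)) 𝒰 (𝓝 0) := by
          rw [Metric.tendsto_nhds]
          intro ε hε
          obtain ⟨B, hB⟩ := exists_nat_gt (1 / ε)
          obtain ⟨Q, hQ⟩ := totient_large B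
          filter_upwards [h Q] with n hn
          have h2 := norm_avg_mFourier (N n) (α n) (hα n) c
          have h3 : (B : ℝ) < (addOrderOf (dot c (α n))).totient := by exact_mod_cast hQ _ hn
          rw [dist_zero_right]
          have h4 : 0 < 1 / ε := by positivity
          have h5 : 1 < ε * (addOrderOf (dot c (α n))).totient := by
            have h6 : 1 / ε < (addOrderOf (dot c (α n))).totient := hB.trans h3
            rwa [div_lt_iff₀' hε] at h6
          have h6 : (0 : ℝ) < (addOrderOf (dot c (α n))).totient := h4.trans (hB.trans h3)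
          exact lt_of_mul_lt_mul_right (h2.trans_lt h5) h6.le
        have h2 := h1.sub (h1.const_mul (chi (dot c g)))
        simpa using h2
    | zero =>
      have h1 : shift g (0 : C(UnitAddTorus ι, ℂ)) = 0 := rfl
      rw [h1]
      simp only [sub_self]
      exact tendsto_const_nhds
    | add P P' _ _ h1 h2 =>
      have h3 : shift g (P + P') = shift g P + shift g P' := rfl
      rw [h3]
      simp only [avg_add]
      have h4 := h1.add h2
      rw [add_zero] at h4
      refine h4.congr fun n => ?_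
      ring
    | smul a P _ h1 =>
      have h3 : shift g (a • P) = a • shift g P := rfl
      rw [h3]
      simp only [avg_smul]
      have h4 := h1.const_mul a
      rw [mul_zero] at h4
      refine h4.congr fun n => ?_
      ring
  rw [Metric.tendsto_nhds]
  intro ε hε
  have hcl : f ∈ (Submodule.span ℂ (Set.range (UnitAddTorus.mFourier (d := ι)))).topologicalClosure := by
    rw [UnitAddTorus.span_mFourier_closure_eq_top]
    trivial
  rw [← SetLike.mem_coe, Submodule.topologicalClosure_coe, Metric.mem_closure_iff] at hcl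
  obtain ⟨P, hP, hfP⟩ := hcl (ε / 4) (by positivity)
  have h1 := hspan P hP
  rw [Metric.tendsto_nhds] at h1
  filter_upwards [h1 (ε / 4) (by positivity)] with n hn
  rw [dist_zero_right] at hn ⊢
  rw [dist_eq_norm] at hfP
  have h2 := norm_avg_le (N n) (α n) (f - P)
  have h3 := (norm_avg_le (N n) (α n) (shift g (f - P))).trans (norm_shift_le g (f - P))
  have h4 : shift g (f - P) = shift g f - shift g P := rfl
  rw [h4] at h3
  rw [avg_sub] at h2 h3
  have h5 : avg (N n) (α n) f - avg (N n) (α n) (shift g f) =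
      (avg (N n) (α n) f - avg (N n) (α n) P) -
        (avg (N n) (α n) (shift g f) - avg (N n) (α n) (shift g P)) +
        (avg (N n) (α n) P - avg (N n) (α n) (shift g P)) := by ring
  rw [h5]
  refine (norm_add_le _ _).trans_lt ?_
  have h6 := norm_sub_le (avg (N n) (α n) f - avg (N n) (α n) P)
    (avg (N n) (α n) (shift g f) - avg (N n) (α n) (shift g P))
  linarith

/-- The tent function at `z`. -/
noncomputable def tent (z : UnitAddTorus ι) (r : ℝ) : C(UnitAddTorus ι, ℂ) :=
  ⟨fun x => ((max 0 (r - dist x z) : ℝ) : ℂ), by fun_prop⟩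

lemma tent_apply (z x : UnitAddTorus ι) (r : ℝ) :
    tent z r x = ((max 0 (r - dist x z) : ℝ) : ℂ) := rfl

/-- The Galois orbits come near every point of the limit coset. -/
theorem not_eventually_miss (𝒰 : Filter ℕ) [NeBot 𝒰] (N : ℕ → ℕ) [∀ n, NeZero (N n)]
    (α : ℕ → UnitAddTorus ι) (hα : ∀ n, N n • α n = 0) (C : Set (UnitAddTorus ι))
    (hC : IsClosed C)
    (hG : ∀ z ∈ C, ∀ z' ∈ C, ∀ c : ι → ℤ, dot c (z - z') = 0 ∨
      ∀ Q : ℕ, ∀ᶠ n in 𝒰, Q < addOrderOf (dot c (α n)))
    (δ : ℝ) (hδ : 0 < δ)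
    (hfrac : ∀ᶠ n in 𝒰, ∃ T : Finset (ZMod (N n))ˣ, δ * (N n).totient ≤ T.card ∧
      ∀ t ∈ T, (t : ZMod (N n)).val • α n ∈ C)
    (z : UnitAddTorus ι) (hz : z ∈ C) (V : Set (UnitAddTorus ι)) (hV : V ∈ 𝓝 z) :
    ¬ ∀ᶠ n in 𝒰, ∀ t : (ZMod (N n))ˣ, (t : ZMod (N n)).val • α n ∉ V := by
  intro hmiss
  obtain ⟨r, hr, hrV⟩ := Metric.mem_nhds_iff.1 hV
  set f := tent z r with hf
  have hf0 : ∀ x, x ∉ V → f x = 0 := by
    intro x hx
    rw [hf, tent_apply, max_eq_left, Complex.ofReal_zero]
    have h1 : ¬ dist x z < r := fun h => hx (hrV h)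
    linarith [not_lt.1 h1]
  have havg : ∀ᶠ n in 𝒰, avg (N n) (α n) f = 0 := by
    filter_upwards [hmiss] with n hn
    unfold avg
    rw [Finset.sum_eq_zero fun t _ => hf0 _ (hn t), zero_div]
  have hshift : ∀ z' ∈ C, Tendsto (fun n => avg (N n) (α n) (shift (z - z') f)) 𝒰 (𝓝 0) := by
    intro z' hz'
    have h1 := tendsto_avg_sub 𝒰 N α hα (z - z') (hG z hz z' hz') f
    have h2 : Tendsto (fun n => avg (N n) (α n) f) 𝒰 (𝓝 0) :=
      tendsto_const_nhds.congr' (havg.mono fun n hn => hn.symm)
    have h3 := h2.sub h1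
    rw [sub_zero] at h3
    exact h3.congr fun n => by ring
  -- a finite subcover
  have hcomp : IsCompact C := hC.isCompact
  obtain ⟨S, hSC, hS⟩ := hcomp.elim_nhds_subcover
    (fun z' => {x | dist (x + (z - z')) z < r / 2}) (fun z' _ => by
      apply IsOpen.mem_nhds
      · exact isOpen_lt (by fun_prop) continuous_const
      · change dist (z' + (z - z')) z < r / 2
        rw [add_sub_cancel, dist_self]
        positivity)
  have htot : Tendsto (fun n => ∑ z' ∈ S, avg (N n) (α n) (shift (z - z') f)) 𝒰 (𝓝 0) := by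
    have h1 := tendsto_finsetSum S fun z' hz' => hshift z' (hSC z' hz')
    rwa [Finset.sum_const_zero] at h1
  rw [Metric.tendsto_nhds] at htot
  have hev := (htot (δ * (r / 2)) (by positivity)).and hfrac
  obtain ⟨n, hn, T, hT, hTC⟩ := hev.exists
  rw [dist_zero_right] at hn
  have h0 := totient_pos' (N n)
  have hre : ∀ (y : UnitAddTorus ι) (z' : UnitAddTorus ι), 0 ≤ (shift (z - z') f y).re := by
    intro y z'
    rw [shift_apply, hf, tent_apply, Complex.ofReal_re]
    exact le_max_left _ _
  have hlow : ∀ t ∈ T, r / 2 ≤ ∑ z' ∈ S, (shift (z - z') f ((t : ZMod (N n)).val • α n)).re := by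
    intro t ht
    have h1 := hS (hTC t ht)
    rw [Set.mem_iUnion₂] at h1
    obtain ⟨z', hz', h2⟩ := h1
    refine le_trans ?_ (Finset.single_le_sum (fun z'' _ => hre _ z'') hz')
    rw [shift_apply, hf, tent_apply, Complex.ofReal_re]
    have h3 : dist ((t : ZMod (N n)).val • α n + (z - z')) z < r / 2 := h2
    exact le_trans (by linarith) (le_max_right _ _)
  have hsum : (∑ z' ∈ S, avg (N n) (α n) (shift (z - z') f)).re =
      (∑ t : (ZMod (N n))ˣ, ∑ z' ∈ S, (shift (z - z') f ((t : ZMod (N n)).val • α n)).re) /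
        (N n).totient := by
    rw [Complex.re_sum, Finset.sum_comm, Finset.sum_div]
    refine Finset.sum_congr rfl fun z' _ => ?_
    unfold avg
    rw [Complex.div_natCast_re, Complex.re_sum]
  have h1 : δ * (r / 2) ≤ (∑ z' ∈ S, avg (N n) (α n) (shift (z - z') f)).re := by
    rw [hsum, le_div_iff₀ h0]
    calc δ * (r / 2) * (N n).totient = δ * (N n).totient * (r / 2) := by ring
      _ ≤ T.card * (r / 2) := mul_le_mul_of_nonneg_right hT (by positivity)
      _ = ∑ t ∈ T, r / 2 := by rw [Finset.sum_const, nsmul_eq_mul]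
      _ ≤ ∑ t ∈ T, ∑ z' ∈ S, (shift (z - z') f ((t : ZMod (N n)).val • α n)).re :=
          Finset.sum_le_sum hlow
      _ ≤ _ := Finset.sum_le_sum_of_subset_of_nonneg (Finset.subset_univ _)
          fun t _ _ => Finset.sum_nonneg fun z' _ => hre _ z'
  have h2 := (Complex.re_le_norm _).trans_lt hn
  linarith

end Pool.Agent.K4H27.FH
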