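import Pool.Agent.K4H27.FH.Limit
import Pool.Agent.H916R2.Closure

/-!
# Tuples of residues killed by all conjugates of the sawtooth function: families
-/

namespace Pool.Agent.K4H27.FH

open Finset Filter Topology Pool.Agent.H916R2

lemma saw_eq_sawR {m : ℕ} [NeZero m] (a : ZMod m) :
    ((saw a : ℤ) : ℝ) = 2 * m * sawR (ZMod.toAddCircle a) := by
  have hm : (0 : ℝ) < m := by exact_mod_cast NeZero.pos m
  unfold saw
  by_cases ha : a = 0
  · rw [if_pos ha, ha, map_zero, sawR_zero]; simp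
  · rw [if_neg ha, ZMod.toAddCircle_apply, sawR_coe]
    · push_cast
      field_simp
    · have h1 : 0 < a.val := Nat.pos_of_ne_zero (fun h => ha ((ZMod.val_eq_zero a).1 h))
      have h2 : (0 : ℝ) < a.val := by exact_mod_cast h1
      positivity
    · rw [div_lt_one hm]
      exact_mod_cast ZMod.val_lt a

variable {ι : Type} [Fintype ι]

/-- Either all entries have bounded order, or the tuple lies on a family with a bounded
direction. -/
theorem family_or_torsion (ι : Type) [Fintype ι] : ∃ M : ℕ, 0 < M ∧ ∀ (m : ℕ) [NeZero m]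
    (a : ι → ZMod m), (∀ t : (ZMod m)ˣ, ∑ i, saw ((t : ZMod m) * a i) = 0) →
    (∀ i, M • a i = 0) ∨ ∃ κ : ι → ℤ, κ ≠ 0 ∧ (∀ i, |κ i| ≤ M) ∧
      ∀ x : UnitAddCircle, (∀ i, ZMod.toAddCircle (a i) + κ i • x ≠ 0) →
        ∑ i, sawR (ZMod.toAddCircle (a i) + κ i • x) = 0 := by
  classical
  by_contra hcon
  push Not at hcon
  choose m hm a hH hbad using fun n : ℕ => hcon (n + 1).factorial (Nat.factorial_pos _)
  set α : ℕ → UnitAddTorus ι := fun n i => ZMod.toAddCircle (a n i) with hα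
  have hα0 : ∀ n, m n • α n = 0 := by
    intro n
    funext i
    change m n • ZMod.toAddCircle (a n i) = 0
    rw [← map_nsmul, nsmul_eq_mul, ZMod.natCast_self, zero_mul, map_zero]
  have hHα : ∀ n, ∀ t : ℕ, Nat.Coprime t (m n) → ∑ i, sawR (t • α n i) = 0 := by
    intro n t ht
    have h1 := hH n (ZMod.unitOfCoprime t ht)
    have h2 : ((∑ i, saw (((ZMod.unitOfCoprime t ht : (ZMod (m n))ˣ) : ZMod (m n)) * a n i) : ℤ)
        : ℝ) = 0 := by rw [h1]; simp
    push_cast at h2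
    rw [Finset.sum_congr rfl fun i _ => saw_eq_sawR _, ← Finset.mul_sum] at h2
    have hm' : (0 : ℝ) < m n := by
      have := hm n
      exact_mod_cast NeZero.pos (m n)
    rcases mul_eq_zero.1 h2 with h3 | h3
    · linarith
    · rw [← h3]
      refine Finset.sum_congr rfl fun i _ => ?_
      change sawR (t • ZMod.toAddCircle (a n i)) = _
      rw [← map_nsmul, nsmul_eq_mul, ZMod.coe_unitOfCoprime]
  by_cases hb : ∀ i, ∃ D : ℕ, 0 < D ∧ ∀ᶠ n in (Filter.hyperfilter ℕ : Filter ℕ), D • α n i = 0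
  · choose D hD hDev using hb
    have h1 : ∀ᶠ n in (Filter.hyperfilter ℕ : Filter ℕ), ∀ i, D i • α n i = 0 :=
      Filter.eventually_all.2 hDev
    have h2 : ∀ᶠ n in (Filter.hyperfilter ℕ : Filter ℕ), ∏ i, D i ≤ n := by
      have h3 : ∀ᶠ n in (Filter.cofinite : Filter ℕ), ∏ i, D i ≤ n := by
        rw [Nat.cofinite_eq_atTop]; exact eventually_ge_atTop _
      exact Filter.hyperfilter_le_cofinite h3
    obtain ⟨n, h3, h4⟩ := (h1.and h2).exists
    obtain ⟨i, hi⟩ := (hbad n).1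
    apply hi
    have h5 : D i ∣ (n + 1).factorial := by
      refine (Finset.dvd_prod_of_mem D (Finset.mem_univ i)).trans ?_
      exact Nat.dvd_factorial (Finset.prod_pos fun i _ => hD i) (by omega)
    obtain ⟨e, he⟩ := h5
    have hinj := ZMod.toAddCircle_injective (m n)
    apply hinj
    rw [map_nsmul, map_zero, he, mul_comm, mul_smul]
    have h6 := h3 i
    change D i • ZMod.toAddCircle (a n i) = 0 at h6
    rw [h6, smul_zero]
  · obtain ⟨κ, hκ, hev⟩ := exists_family (Filter.hyperfilter ℕ) m α hα0 hHα hb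
    have h2 : ∀ᶠ n in (Filter.hyperfilter ℕ : Filter ℕ), ∑ i, (κ i).natAbs ≤ n := by
      have h3 : ∀ᶠ n in (Filter.cofinite : Filter ℕ), ∑ i, (κ i).natAbs ≤ n := by
        rw [Nat.cofinite_eq_atTop]; exact eventually_ge_atTop _
      exact Filter.hyperfilter_le_cofinite h3
    obtain ⟨n, h3, h4⟩ := (hev.and h2).exists
    obtain ⟨x, hx, hne⟩ := (hbad n).2 κ hκ (by
      intro i
      have h5 : (κ i).natAbs ≤ ∑ i, (κ i).natAbs :=
        Finset.single_le_sum (f := fun i => (κ i).natAbs) (fun _ _ => Nat.zero_le _)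
          (Finset.mem_univ i)
      have h6 : n + 1 ≤ (n + 1).factorial := Nat.self_le_factorial _
      rw [Int.abs_eq_natAbs]
      exact_mod_cast (h5.trans h4).trans ((Nat.le_succ n).trans h6))
    apply hne
    have h5 := h3 1 (Nat.coprime_one_left _) x (by
      intro i
      rw [one_smul]
      exact hx i)
    simp only [one_smul] at h5
    exact h5

/-- Version for subsets of the index set. -/
theorem family_or_torsion' (ι : Type) [Fintype ι] [DecidableEq ι] :
    ∃ M : ℕ, 0 < M ∧ ∀ (m : ℕ) [NeZero m]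
    (a : ι → ZMod m) (I : Finset ι), (∀ t : (ZMod m)ˣ, ∑ i ∈ I, saw ((t : ZMod m) * a i) = 0) →
    (∀ i ∈ I, M • a i = 0) ∨ ∃ κ : ι → ℤ, (∃ i, κ i ≠ 0) ∧ (∀ i, κ i ≠ 0 → i ∈ I) ∧
      (∀ i, |κ i| ≤ M) ∧
      ∀ x : UnitAddCircle, (∀ i ∈ I, ZMod.toAddCircle (a i) + κ i • x ≠ 0) →
        ∑ i ∈ I, sawR (ZMod.toAddCircle (a i) + κ i • x) = 0 := by
  classical
  choose M hM h using fun I : Finset ι => family_or_torsion I
  refine ⟨∏ I, M I, Finset.prod_pos fun I _ => hM I, ?_⟩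
  intro m _ a I hH
  have hdvd : M I ∣ ∏ I, M I := Finset.dvd_prod_of_mem M (Finset.mem_univ I)
  have hle : M I ≤ ∏ I, M I := Nat.le_of_dvd (Finset.prod_pos fun I _ => hM I) hdvd
  have h1 := h I m (fun i : I => a i) (by
    intro t
    rw [← hH t, ← Finset.sum_coe_sort I])
  rcases h1 with h1 | ⟨κ, hκ, hκM, hx⟩
  · left
    intro i hi
    obtain ⟨e, he⟩ := hdvd
    rw [he, mul_comm, mul_smul, h1 ⟨i, hi⟩, smul_zero]
  · right
    have hκ' : ∀ i : I, (fun i => if h : i ∈ I then κ ⟨i, h⟩ else 0) (i : ι) = κ i := by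
      intro i
      change (if h : (i : ι) ∈ I then κ ⟨i, h⟩ else 0) = κ i
      rw [dif_pos i.2]
    refine ⟨fun i => if h : i ∈ I then κ ⟨i, h⟩ else 0, ?_, ?_, ?_, ?_⟩
    · by_contra hcon
      push Not at hcon
      apply hκ
      funext i
      rw [← hκ' i]
      exact hcon i
    · intro i hi
      by_contra hcon
      apply hi
      change (if h : (i : ι) ∈ I then κ ⟨i, h⟩ else 0) = 0
      rw [dif_neg hcon]
    · intro i
      change |(if h : (i : ι) ∈ I then κ ⟨i, h⟩ else 0)| ≤ _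
      by_cases hi : i ∈ I
      · rw [dif_pos hi]
        exact (hκM _).trans (by exact_mod_cast hle)
      · rw [dif_neg hi, abs_zero]
        exact Int.natCast_nonneg _
    · intro x hne
      rw [← hx x (fun i => by rw [← hκ' i]; exact hne i i.2), ← Finset.sum_coe_sort I]
      refine Finset.sum_congr rfl fun i _ => ?_
      rw [hκ' i]

/-- values of the sawtooth function near a torsion point -/
lemma sawR_near {N : ℕ} [NeZero N] (b : ZMod N) (hb : b ≠ 0) (δ : ℝ) (hδ : |δ| < 1 / N) :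
    ZMod.toAddCircle b + (δ : UnitAddCircle) ≠ 0 ∧
    sawR (ZMod.toAddCircle b + (δ : UnitAddCircle)) = sawR (ZMod.toAddCircle b) + δ := by
  have hN : (0 : ℝ) < N := by exact_mod_cast NeZero.pos N
  have h1 : (1 : ℝ) ≤ b.val := by
    have h2 : 0 < b.val := Nat.pos_of_ne_zero (fun h => hb ((ZMod.val_eq_zero b).1 h))
    exact_mod_cast h2
  have h2 : (b.val : ℝ) + 1 ≤ N := by exact_mod_cast ZMod.val_lt b
  have h3 : 1 / (N : ℝ) ≤ (b.val : ℝ) / N := by gcongr
  have h4 : (b.val : ℝ) / N + 1 / N ≤ 1 := by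
    rw [← add_div, div_le_one hN]; exact h2
  rw [abs_lt] at hδ
  have h5 : (0 : ℝ) < (b.val : ℝ) / N := by positivity
  have h6 : (0 : ℝ) < 1 / (N : ℝ) := by positivity
  rw [ZMod.toAddCircle_apply, ← AddCircle.coe_add, sawR_coe (by linarith) (by linarith),
    sawR_coe h5 (by linarith)]
  refine ⟨?_, by ring⟩
  intro h
  have h7 := (AddCircle.coe_eq_coe_iff_of_mem_Ico (p := (1 : ℝ)) (a := 0)
      (x := (b.val : ℝ) / N + δ) (y := 0)
      ⟨by linarith, by linarith⟩ ⟨le_refl _, by norm_num⟩).1 (by simpa using h)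
  linarith

lemma sawR_near_zero (δ : ℝ) (hδ : |δ| < 1) (h0 : δ ≠ 0) :
    (δ : UnitAddCircle) ≠ 0 ∧ sawR (δ : UnitAddCircle) = δ - SignType.sign δ / 2 := by
  rw [abs_lt] at hδ
  rcases lt_or_gt_of_ne h0 with h | h
  · have h1 : (δ : UnitAddCircle) = ((δ + 1 : ℝ) : UnitAddCircle) := by
      rw [AddCircle.coe_add, AddCircle.coe_period, add_zero]
    rw [h1, sawR_coe (by linarith) (by linarith), sign_neg h]
    refine ⟨?_, by norm_num; ring⟩
    intro h
    have h7 := (AddCircle.coe_eq_coe_iff_of_mem_Ico (p := (1 : ℝ)) (a := 0)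
        (x := δ + 1) (y := 0)
        ⟨by linarith, by linarith⟩ ⟨le_refl _, by norm_num⟩).1 (by simpa using h)
    linarith
  · rw [sawR_coe h (by linarith), sign_pos h]
    refine ⟨?_, by norm_num⟩
    intro h
    have h7 := (AddCircle.coe_eq_coe_iff_of_mem_Ico (p := (1 : ℝ)) (a := 0)
        (x := δ) (y := 0)
        ⟨by linarith, by linarith⟩ ⟨le_refl _, by norm_num⟩).1 (by simpa using h)
    linarith

/-- **The jumps cancel.** -/
theorem jump {N : ℕ} [NeZero N] (I : Finset ι) (b : ι → ZMod N) (hb : ∀ i ∈ I, b i ≠ 0)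
    (κ : ι → ℤ) (hF : ∀ x : UnitAddCircle, (∀ i ∈ I, ZMod.toAddCircle (b i) + κ i • x ≠ 0) →
        ∑ i ∈ I, sawR (ZMod.toAddCircle (b i) + κ i • x) = 0) (θ : ZMod N) :
    ∑ i ∈ I, (if (κ i : ZMod N) * θ = b i then (SignType.sign (κ i) : ℤ) else 0) = 0 := by
  classical
  have hN : (1 : ℝ) ≤ N := by exact_mod_cast NeZero.pos N
  set C : ℝ := 1 + ∑ i ∈ I, |(κ i : ℝ)| with hC
  have hS0 : 0 ≤ ∑ i ∈ I, |(κ i : ℝ)| := Finset.sum_nonneg fun i _ => abs_nonneg _
  have hC1 : 1 ≤ C := by linarith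
  set δ : ℝ := 1 / (2 * N * C) with hδ
  have hδ0 : 0 < δ := by positivity
  have hδC : δ * C = 1 / (2 * N) := by
    rw [hδ]; field_simp
  have hN' : 1 / (2 * (N : ℝ)) < 1 / N := by
    apply one_div_lt_one_div_of_lt <;> linarith
  have hN1 : 1 / (N : ℝ) ≤ 1 := by
    rw [div_le_one (by linarith)]; exact hN
  have hκ : ∀ i ∈ I, |(κ i : ℝ)| * δ < 1 / N := by
    intro i hi
    have h1 : |(κ i : ℝ)| ≤ ∑ i ∈ I, |(κ i : ℝ)| :=
      Finset.single_le_sum (f := fun i => |(κ i : ℝ)|) (fun _ _ => abs_nonneg _) hi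
    have h2 : |(κ i : ℝ)| * δ ≤ C * δ := by
      apply mul_le_mul_of_nonneg_right _ hδ0.le
      linarith
    rw [mul_comm C, hδC] at h2
    exact h2.trans_lt hN'
  -- the terms
  have hterm : ∀ ε : ℝ, |ε| = δ → ∀ i ∈ I,
      ZMod.toAddCircle (b i) + κ i • (-ZMod.toAddCircle θ + (ε : UnitAddCircle)) ≠ 0 ∧
      sawR (ZMod.toAddCircle (b i) + κ i • (-ZMod.toAddCircle θ + (ε : UnitAddCircle))) =
        sawR (ZMod.toAddCircle (b i - (κ i : ZMod N) * θ)) + κ i * ε -
          (if (κ i : ZMod N) * θ = b i then ((SignType.sign (κ i) : ℤ) : ℝ) else 0) *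
            (SignType.sign ε : ℝ) / 2 := by
    intro ε hε i hi
    have h1 : ZMod.toAddCircle (b i) + κ i • (-ZMod.toAddCircle θ + (ε : UnitAddCircle)) =
        ZMod.toAddCircle (b i - (κ i : ZMod N) * θ) + ((κ i * ε : ℝ) : UnitAddCircle) := by
      rw [map_sub, ← zsmul_eq_mul, map_zsmul, smul_add, smul_neg, ← AddCircle.coe_zsmul,
        zsmul_eq_mul]
      abel
    have hsmall : |(κ i : ℝ) * ε| < 1 / N := by
      rw [abs_mul, hε]; exact hκ i hi
    rw [h1]
    by_cases hcase : (κ i : ZMod N) * θ = b i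
    · have hκ0 : κ i ≠ 0 := by
        intro h
        rw [h] at hcase
        apply hb i hi
        rw [← hcase]; simp
      have hε0 : ε ≠ 0 := by
        intro h
        rw [h, abs_zero] at hε
        exact hδ0.ne hε
      obtain ⟨h3, h4⟩ := sawR_near_zero ((κ i : ℝ) * ε) (hsmall.trans_le hN1)
        (mul_ne_zero (by exact_mod_cast hκ0) hε0)
      rw [if_pos hcase, hcase, sub_self, map_zero, zero_add, sawR_zero, zero_add]
      refine ⟨h3, ?_⟩
      rw [h4, sign_mul]
      have h5 : SignType.sign ((κ i : ℤ) : ℝ) = SignType.sign (κ i) := by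
        rcases lt_trichotomy (κ i) 0 with h | h | h
        · rw [sign_neg h, sign_neg (by exact_mod_cast h)]
        · exact absurd h hκ0
        · rw [sign_pos h, sign_pos (by exact_mod_cast h)]
      rw [h5]
      push_cast
      ring
    · have h2 : b i - (κ i : ZMod N) * θ ≠ 0 := by
        intro h
        exact hcase (sub_eq_zero.1 h).symm
      obtain ⟨h3, h4⟩ := sawR_near (b i - (κ i : ZMod N) * θ) h2 ((κ i : ℝ) * ε) hsmall
      refine ⟨h3, ?_⟩
      rw [h4, if_neg hcase]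
      ring
  have hsum : ∀ ε : ℝ, |ε| = δ →
      ∑ i ∈ I, sawR (ZMod.toAddCircle (b i - (κ i : ZMod N) * θ)) + (∑ i ∈ I, (κ i : ℝ)) * ε -
        (∑ i ∈ I, (if (κ i : ZMod N) * θ = b i then ((SignType.sign (κ i) : ℤ) : ℝ) else 0)) *
          (SignType.sign ε : ℝ) / 2 = 0 := by
    intro ε hε
    have hE := hF (-ZMod.toAddCircle θ + (ε : UnitAddCircle)) (fun i hi => (hterm ε hε i hi).1)
    rw [Finset.sum_congr rfl fun i hi => (hterm ε hε i hi).2, Finset.sum_sub_distrib,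
      Finset.sum_add_distrib, ← Finset.sum_div, ← Finset.sum_mul, ← Finset.sum_mul] at hE
    exact hE
  have h1 := hsum δ (abs_of_pos hδ0)
  have h2 := hsum (-δ) (by rw [abs_neg, abs_of_pos hδ0])
  rw [sign_pos hδ0] at h1
  rw [sign_neg (neg_neg_of_pos hδ0)] at h2
  simp only [SignType.coe_one, SignType.coe_neg_one] at h1 h2
  set T : ℤ := ∑ i ∈ I, (if (κ i : ZMod N) * θ = b i then (SignType.sign (κ i) : ℤ) else 0)
    with hT
  have hTr : (∑ i ∈ I, (if (κ i : ZMod N) * θ = b i then ((SignType.sign (κ i) : ℤ) : ℝ) else 0)) =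
      (T : ℝ) := by
    rw [hT]; push_cast; rfl
  rw [hTr] at h1 h2
  have h3 : (T : ℝ) = 2 * δ * ∑ i ∈ I, (κ i : ℝ) := by linarith
  have h4 : |(T : ℝ)| < 1 := by
    rw [h3, abs_mul, abs_of_pos (by positivity : (0 : ℝ) < 2 * δ)]
    have h5 : |∑ i ∈ I, (κ i : ℝ)| ≤ ∑ i ∈ I, |(κ i : ℝ)| := Finset.abs_sum_le_sum_abs _ _
    have h6 : |∑ i ∈ I, (κ i : ℝ)| < C := by linarith
    calc 2 * δ * |∑ i ∈ I, (κ i : ℝ)| < 2 * δ * C := by
          apply mul_lt_mul_of_pos_left h6; positivity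
      _ = 1 / N := by rw [mul_assoc, hδC]; field_simp
      _ ≤ 1 := hN1
  have h7 : |T| < 1 := by exact_mod_cast h4
  exact Int.abs_lt_one_iff.1 h7

end Pool.Agent.K4H27.FH
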