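import Pool.Agent.K4H27.FH.Equi

/-!
# Torsion points whose Galois orbits lie in the zero set of the sum of the sawtooth functions
-/

namespace Pool.Agent.K4H27.FH

open Finset Filter Topology

set_option linter.unusedSectionVars false

/-- The sawtooth function on the circle. -/
noncomputable def sawR (y : UnitAddCircle) : ℝ :=
  open Classical in if y = 0 then 0 else ((AddCircle.equivIco 1 0 y : ℝ)) - 1 / 2

lemma sawR_zero : sawR 0 = 0 := by
  unfold sawR; rw [if_pos rfl]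

lemma continuousAt_sawR {y : UnitAddCircle} (hy : y ≠ 0) : ContinuousAt sawR y := by
  classical
  have h1 : ContinuousAt (fun y : UnitAddCircle => ((AddCircle.equivIco 1 0 y : ℝ)) - 1 / 2) y := by
    have h2 := AddCircle.continuousAt_equivIco (1 : ℝ) 0 (x := y) (by simpa using hy)
    exact (continuous_subtype_val.continuousAt.comp h2).sub continuousAt_const
  refine h1.congr ?_
  have h2 : ∀ᶠ x in 𝓝 y, x ≠ 0 := isOpen_ne.mem_nhds hy
  filter_upwards [h2] with x hx
  unfold sawR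
  rw [if_neg hx]

lemma sawR_coe {x : ℝ} (h0 : 0 < x) (h1 : x < 1) : sawR (x : UnitAddCircle) = x - 1 / 2 := by
  have h2 : (x : UnitAddCircle) ≠ 0 := by
    intro h
    have h3 := (AddCircle.coe_eq_coe_iff_of_mem_Ico (p := (1 : ℝ)) (a := 0) (x := x) (y := 0)
      ⟨h0.le, by simpa using h1⟩ ⟨le_refl _, by norm_num⟩).1 (by simpa using h)
    exact h0.ne' h3
  unfold sawR
  rw [if_neg h2]
  have h3 : (AddCircle.equivIco (1 : ℝ) 0 (x : UnitAddCircle) : ℝ) = x := by
    have h4 := AddCircle.coe_equivIco_mk_apply (1 : ℝ) x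
    rw [h4, div_one, mul_one, Int.fract_eq_self.2 ⟨h0.le, h1⟩]
  rw [h3]

/-- An ultrafilter chooses a value of a sequence of points of bounded order. -/
lemma exists_value (𝒰 : Ultrafilter ℕ) (y : ℕ → UnitAddCircle) (D : ℕ) (hD : 0 < D)
    (h : ∀ᶠ n in (𝒰 : Filter ℕ), D • y n = 0) :
    ∃ θ : UnitAddCircle, ∀ᶠ n in (𝒰 : Filter ℕ), y n = θ := by
  have hfin : {u : UnitAddCircle | D • u = 0}.Finite := AddCircle.finite_torsion 1 hD
  have h1 : (⋃ θ ∈ {u : UnitAddCircle | D • u = 0}, {n | y n = θ}) ∈ 𝒰 := by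
    filter_upwards [h] with n hn
    exact Set.mem_biUnion (show y n ∈ {u : UnitAddCircle | D • u = 0} from hn) rfl
  rw [Ultrafilter.finite_biUnion_mem_iff hfin] at h1
  obtain ⟨θ, _, hθ⟩ := h1
  exact ⟨θ, hθ⟩

variable {ι : Type} [Fintype ι]

/-- The characters whose values on the points have bounded orders. -/
def Lam (𝒰 : Ultrafilter ℕ) (α : ℕ → UnitAddTorus ι) : Submodule ℤ (ι → ℤ) where
  carrier := {c | ∃ D : ℕ, 0 < D ∧ ∀ᶠ n in (𝒰 : Filter ℕ), D • dot c (α n) = 0}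
  zero_mem' := ⟨1, one_pos, Eventually.of_forall fun n => by rw [zero_dot, smul_zero]⟩
  add_mem' := by
    rintro c d ⟨D, hD, h⟩ ⟨D', hD', h'⟩
    refine ⟨D * D', Nat.mul_pos hD hD', ?_⟩
    filter_upwards [h, h'] with n hn hn'
    rw [add_dot, smul_add, mul_comm, mul_smul, hn, smul_zero, mul_comm, mul_smul, hn', smul_zero,
      add_zero]
  smul_mem' := by
    rintro a c ⟨D, hD, h⟩
    refine ⟨D, hD, ?_⟩
    filter_upwards [h] with n hn
    rw [smul_dot, smul_comm, hn, smul_zero]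

lemma mem_Lam {𝒰 : Ultrafilter ℕ} {α : ℕ → UnitAddTorus ι} {c : ι → ℤ} :
    c ∈ Lam 𝒰 α ↔ ∃ D : ℕ, 0 < D ∧ ∀ᶠ n in (𝒰 : Filter ℕ), D • dot c (α n) = 0 := Iff.rfl

open Classical in
/-- The eventual value of a character. -/
noncomputable def val (𝒰 : Ultrafilter ℕ) (α : ℕ → UnitAddTorus ι) (c : ι → ℤ) : UnitAddCircle :=
  if h : ∃ θ : UnitAddCircle, ∀ᶠ n in (𝒰 : Filter ℕ), dot c (α n) = θ then h.choose else 0

lemma val_spec {𝒰 : Ultrafilter ℕ} {α : ℕ → UnitAddTorus ι} {c : ι → ℤ} (hc : c ∈ Lam 𝒰 α) :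
    ∀ᶠ n in (𝒰 : Filter ℕ), dot c (α n) = val 𝒰 α c := by
  obtain ⟨D, hD, h⟩ := hc
  have h1 := exists_value 𝒰 (fun n => dot c (α n)) D hD h
  unfold val
  rw [dif_pos h1]
  exact h1.choose_spec

lemma eventually_all {𝒰 : Ultrafilter ℕ} {α : ℕ → UnitAddTorus ι} :
    ∀ᶠ n in (𝒰 : Filter ℕ), ∀ c ∈ Lam 𝒰 α, dot c (α n) = val 𝒰 α c := by
  obtain ⟨S, hS⟩ : (Lam 𝒰 α).FG := IsNoetherian.noetherian _
  have hSL : ∀ c ∈ S, c ∈ Lam 𝒰 α := fun c hc => by
    rw [← hS]; exact Submodule.subset_span hc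
  have h1 : ∀ᶠ n in (𝒰 : Filter ℕ), ∀ c ∈ S, dot c (α n) = val 𝒰 α c := by
    rw [Filter.eventually_all_finset]
    exact fun c hc => val_spec (hSL c hc)
  filter_upwards [h1] with n hn
  intro c hc
  have hval : ∀ c ∈ Lam 𝒰 α, ∀ d ∈ Lam 𝒰 α, val 𝒰 α (c + d) = val 𝒰 α c + val 𝒰 α d := by
    intro c hc d hd
    obtain ⟨n', h1, h2, h3⟩ := ((val_spec hc).and ((val_spec hd).and
      (val_spec (Submodule.add_mem _ hc hd)))).exists
    rw [← h1, ← h2, ← h3, add_dot]
  have hsm : ∀ a : ℤ, ∀ c ∈ Lam 𝒰 α, val 𝒰 α (a • c) = a • val 𝒰 α c := by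
    intro a c hc
    obtain ⟨n', h1, h2⟩ := ((val_spec hc).and (val_spec (Submodule.smul_mem _ a hc))).exists
    rw [← h1, ← h2, smul_dot]
  have h0 : val 𝒰 α 0 = 0 := by
    obtain ⟨n', h1⟩ := (val_spec (Submodule.zero_mem (Lam 𝒰 α))).exists
    rw [← h1, zero_dot]
  have h2 : c ∈ Lam 𝒰 α ∧ dot c (α n) = val 𝒰 α c := by
    rw [← hS] at hc
    induction hc using Submodule.span_induction with
    | mem c hc => exact ⟨hSL c hc, hn c hc⟩
    | zero => exact ⟨Submodule.zero_mem _, by rw [zero_dot, h0]⟩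
    | add c d _ _ h1 h2 =>
      exact ⟨Submodule.add_mem _ h1.1 h2.1, by rw [add_dot, h1.2, h2.2, hval c h1.1 d h2.1]⟩
    | smul a c _ h1 => exact ⟨Submodule.smul_mem _ _ h1.1, by rw [smul_dot, h1.2, hsm a c h1.1]⟩
  exact h2.2

/-- There is a direction orthogonal to the bounded characters. -/
lemma exists_direction {𝒰 : Ultrafilter ℕ} {α : ℕ → UnitAddTorus ι} [DecidableEq ι]
    (h : ∃ i : ι, (Pi.single i 1 : ι → ℤ) ∉ Lam 𝒰 α) :
    ∃ κ : ι → ℤ, κ ≠ 0 ∧ ∀ c ∈ Lam 𝒰 α, ∑ i, c i * κ i = 0 := by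
  obtain ⟨i0, hi0⟩ := h
  set p : Submodule ℚ (ι → ℚ) := Submodule.span ℚ
    {v | ∃ c ∈ Lam 𝒰 α, v = fun i => ((c i : ℤ) : ℚ)} with hp
  have hsat : ∀ v ∈ p, ∃ a : ℤ, a ≠ 0 ∧ ∃ c ∈ Lam 𝒰 α, ∀ i, (a : ℚ) * v i = ((c i : ℤ) : ℚ) := by
    intro v hv
    induction hv using Submodule.span_induction with
    | mem v hv =>
      obtain ⟨c, hc, rfl⟩ := hv
      exact ⟨1, one_ne_zero, c, hc, fun i => by simp⟩
    | zero => exact ⟨1, one_ne_zero, 0, Submodule.zero_mem _, fun i => by simp⟩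
    | add v w _ _ h1 h2 =>
      obtain ⟨a, ha, c, hc, h1⟩ := h1
      obtain ⟨b, hb, d, hd, h2⟩ := h2
      refine ⟨a * b, mul_ne_zero ha hb, b • c + a • d,
        Submodule.add_mem _ (Submodule.smul_mem _ _ hc) (Submodule.smul_mem _ _ hd), fun i => ?_⟩
      rw [Pi.add_apply, Pi.add_apply, Pi.smul_apply, Pi.smul_apply, smul_eq_mul, smul_eq_mul]
      push_cast
      rw [← h1 i, ← h2 i]
      ring
    | smul q v _ h1 =>
      obtain ⟨a, ha, c, hc, h1⟩ := h1
      refine ⟨q.den * a, mul_ne_zero (by exact_mod_cast q.den_nz) ha, q.num • c,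
        Submodule.smul_mem _ _ hc, fun i => ?_⟩
      rw [Pi.smul_apply, Pi.smul_apply, smul_eq_mul, smul_eq_mul]
      push_cast
      rw [← h1 i]
      have h2 : (q.den : ℚ) * q = q.num := Rat.den_mul_eq_num q
      calc (q.den : ℚ) * a * (q * v i) = ((q.den : ℚ) * q) * (a * v i) := by ring
        _ = _ := by rw [h2]
  have hlt : p < ⊤ := by
    rw [lt_top_iff_ne_top]
    intro htop
    have h1 : (Pi.single i0 1 : ι → ℚ) ∈ p := by rw [htop]; trivial
    obtain ⟨a, ha, c, hc, h2⟩ := hsat _ h1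
    apply hi0
    have h3 : c = a • (Pi.single i0 1 : ι → ℤ) := by
      funext i
      have h4 := h2 i
      rw [Pi.smul_apply, smul_eq_mul]
      by_cases hi : i = i0
      · subst hi
        rw [Pi.single_eq_same] at h4 ⊢
        rw [mul_one] at h4 ⊢
        exact_mod_cast h4.symm
      · rw [Pi.single_eq_of_ne hi] at h4 ⊢
        rw [mul_zero] at h4 ⊢
        exact_mod_cast h4.symm
    rw [h3] at hc
    obtain ⟨D, hD, h4⟩ := hc
    refine ⟨D * a.natAbs, Nat.mul_pos hD (Int.natAbs_pos.2 ha), ?_⟩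
    filter_upwards [h4] with n hn
    rw [smul_dot] at hn
    rcases Int.natAbs_eq a with h5 | h5
    · rw [h5, natCast_zsmul] at hn
      rw [mul_smul]
      exact hn
    · rw [h5, neg_smul, natCast_zsmul, smul_neg, neg_eq_zero] at hn
      rw [mul_smul]
      exact hn
  obtain ⟨f, hf, hker⟩ := Submodule.exists_le_ker_of_lt_top p hlt
  set den : ℕ := ∏ i, (f (Pi.single i 1)).den with hden
  have hden0 : (den : ℚ) ≠ 0 := by
    rw [hden]
    exact_mod_cast (Finset.prod_pos fun i _ => (f (Pi.single i 1)).den_pos).ne'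
  have hint : ∀ i, ∃ z : ℤ, (z : ℚ) = den * f (Pi.single i 1) := by
    intro i
    obtain ⟨e, he⟩ : (f (Pi.single i 1)).den ∣ den := Finset.dvd_prod_of_mem _ (Finset.mem_univ i)
    refine ⟨e * (f (Pi.single i 1)).num, ?_⟩
    rw [he]
    push_cast
    rw [← Rat.den_mul_eq_num (f (Pi.single i 1))]
    ring
  choose κ hκ using hint
  have hfv : ∀ v : ι → ℚ, f v = ∑ i, v i * f (Pi.single i 1) := by
    intro v
    conv_lhs => rw [← Finset.univ_sum_single v]
    rw [map_sum]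
    refine Finset.sum_congr rfl fun i _ => ?_
    have h1 : (Pi.single i (v i) : ι → ℚ) = v i • Pi.single i 1 := by
      rw [← Pi.single_smul, smul_eq_mul, mul_one]
    rw [h1, map_smul, smul_eq_mul]
  refine ⟨κ, ?_, ?_⟩
  · intro h0
    apply hf
    ext i
    have h1 : (κ i : ℚ) = den * f (Pi.single i 1) := hκ i
    rw [h0] at h1
    simp only [Pi.zero_apply, Int.cast_zero] at h1
    rcases mul_eq_zero.1 h1.symm with h2 | h2
    · exact absurd h2 hden0
    · simpa using h2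
  · intro c hc
    have h1 : f (fun i => ((c i : ℤ) : ℚ)) = 0 := by
      have h2 := hker (Submodule.subset_span ⟨c, hc, rfl⟩)
      exact h2
    rw [hfv] at h1
    have h2 : ((∑ i, c i * κ i : ℤ) : ℚ) = 0 := by
      push_cast
      rw [Finset.sum_congr rfl fun i _ => by rw [hκ i]]
      calc ∑ i, ((c i : ℤ) : ℚ) * (den * f (Pi.single i 1)) =
            den * ∑ i, ((c i : ℤ) : ℚ) * f (Pi.single i 1) := by
            rw [Finset.mul_sum]; exact Finset.sum_congr rfl fun i _ => by ring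
        _ = 0 := by rw [h1, mul_zero]
    exact_mod_cast h2

/-- The coset of the limit points of the multiples by the numbers congruent to `u`. -/
def coset (𝒰 : Ultrafilter ℕ) (α : ℕ → UnitAddTorus ι) (u : ℕ) : Set (UnitAddTorus ι) :=
  {z | ∀ c ∈ Lam 𝒰 α, dot c z = u • val 𝒰 α c}

lemma isClosed_coset (𝒰 : Ultrafilter ℕ) (α : ℕ → UnitAddTorus ι) (u : ℕ) :
    IsClosed (coset 𝒰 α u) := by
  unfold coset
  simp only [Set.ofPred_forall]
  exact isClosed_biInter fun c _ => isClosed_eq (continuous_dot c) continuous_const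

lemma exists_coprime_lift {m N t : ℕ} [NeZero N] (h : m ∣ N) (ht : Nat.Coprime t m) :
    ∃ t' : ℕ, Nat.Coprime t' N ∧ t' ≡ t [MOD m] := by
  obtain ⟨u, hu⟩ := ZMod.unitsMap_surjective h (ZMod.unitOfCoprime t ht)
  refine ⟨(u : ZMod N).val, ZMod.val_coe_unit_coprime u, ?_⟩
  have h1 := congrArg (fun v : (ZMod m)ˣ => (v : ZMod m)) hu
  simp only [ZMod.coe_unitOfCoprime] at h1
  rw [ZMod.unitsMap_val, ← ZMod.natCast_val] at h1
  exact (ZMod.natCast_eq_natCast_iff _ _ _).1 h1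

lemma nsmul_congr_of_modEq {m t t' : ℕ} (h : t' ≡ t [MOD m]) {y : UnitAddCircle} (hy : m • y = 0) :
    t' • y = t • y := by
  have key : ∀ a : ℕ, a • y = (a % m) • y := by
    intro a
    conv_lhs => rw [← Nat.div_add_mod a m, add_smul, mul_comm, mul_smul, hy, smul_zero, zero_add]
  rw [key t', key t, h]

/-- The sum of the sawtooth functions vanishes on the limit coset. -/
theorem sum_sawR_eq_zero (𝒰 : Ultrafilter ℕ) (m : ℕ → ℕ) [hm : ∀ n, NeZero (m n)]
    (α : ℕ → UnitAddTorus ι) (hα : ∀ n, m n • α n = 0)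
    (hH : ∀ n, ∀ t : ℕ, Nat.Coprime t (m n) → ∑ i, sawR (t • α n i) = 0)
    (D : ℕ) (hD : 0 < D) (hDv : ∀ c ∈ Lam 𝒰 α, D • val 𝒰 α c = 0)
    (u : ℕ) (hu : Nat.Coprime u D) (z : UnitAddTorus ι) (hz : z ∈ coset 𝒰 α u)
    (hz0 : ∀ i, z i ≠ 0) : ∑ i, sawR (z i) = 0 := by
  classical
  by_contra hcon
  have hDne : NeZero D := ⟨hD.ne'⟩
  have hN : ∀ n, NeZero (m n * D) := fun n => ⟨Nat.mul_ne_zero (NeZero.ne _) hD.ne'⟩
  have hα' : ∀ n, (m n * D) • α n = 0 := fun n => by
    rw [mul_comm, mul_smul, hα, smul_zero]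
  have hcont : ContinuousAt (fun x : UnitAddTorus ι => ∑ i, sawR (x i)) z := by
    refine tendsto_finsetSum _ fun i _ => ?_
    exact ContinuousAt.comp (g := sawR) (f := fun x : UnitAddTorus ι => x i) (x := z)
      (continuousAt_sawR (hz0 i)) (continuous_apply i).continuousAt
  have hV : {x : UnitAddTorus ι | ∑ i, sawR (x i) ≠ 0} ∈ 𝓝 z :=
    hcont (isOpen_ne.mem_nhds hcon)
  refine not_eventually_miss (𝒰 : Filter ℕ) (fun n => m n * D) α hα' (coset 𝒰 α u)
    (isClosed_coset 𝒰 α u) ?_ (1 / (D.totient : ℝ)) (by have := totient_pos' D; positivity) ?_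
    z hz _ hV ?_
  · intro x hx x' hx' c
    by_cases hc : c ∈ Lam 𝒰 α
    · left
      rw [dot_sub, hx c hc, hx' c hc, sub_self]
    · right
      intro Q
      by_contra hQ
      rw [← Ultrafilter.eventually_not] at hQ
      apply hc
      refine ⟨Q.factorial, Nat.factorial_pos Q, ?_⟩
      filter_upwards [hQ] with n hn
      rw [not_lt] at hn
      have h1 : m n • dot c (α n) = 0 := by
        rw [← dot_nsmul, hα]
        unfold dot
        exact Finset.sum_eq_zero fun i _ => smul_zero _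
      have h2 : 0 < addOrderOf (dot c (α n)) :=
        Nat.pos_of_dvd_of_pos (addOrderOf_dvd_of_nsmul_eq_zero h1)
          (Nat.pos_of_ne_zero (NeZero.ne (m n)))
      exact addOrderOf_dvd_iff_nsmul_eq_zero.1 (Nat.dvd_factorial h2 hn)
  · filter_upwards [eventually_all (𝒰 := 𝒰) (α := α)] with n hn
    have hdvd : D ∣ m n * D := Dvd.intro_left _ rfl
    set w : (ZMod D)ˣ := ZMod.unitOfCoprime u hu with hw
    have hsurj := ZMod.unitsMap_surjective hdvd
    refine ⟨Finset.univ.filter fun t : (ZMod (m n * D))ˣ => ZMod.unitsMap hdvd t = w, ?_, ?_⟩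
    · have h3 : ∀ v : (ZMod D)ˣ, (Finset.univ.filter fun t : (ZMod (m n * D))ˣ =>
          ZMod.unitsMap hdvd t = v).card = (Finset.univ.filter fun t : (ZMod (m n * D))ˣ =>
          ZMod.unitsMap hdvd t = w).card := by
        intro v
        obtain ⟨v', rfl⟩ := hsurj v
        obtain ⟨w', hw'⟩ := hsurj w
        rw [← hw']
        exact MonoidHom.card_fiber_eq_of_mem_range _ ⟨v', rfl⟩ ⟨w', rfl⟩
      have h4 : (Finset.univ : Finset (ZMod (m n * D))ˣ).card = ∑ v : (ZMod D)ˣ,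
          (Finset.univ.filter fun t : (ZMod (m n * D))ˣ => ZMod.unitsMap hdvd t = v).card :=
        Finset.card_eq_sum_card_fiberwise (fun t _ => Finset.mem_univ _)
      rw [Finset.sum_congr rfl fun v _ => h3 v, Finset.sum_const, Finset.card_univ,
        Finset.card_univ, ZMod.card_units_eq_totient, ZMod.card_units_eq_totient, smul_eq_mul]
        at h4
      have h5 := totient_pos' D
      rw [h4]
      push_cast
      rw [← mul_assoc, one_div, inv_mul_cancel₀ h5.ne', one_mul]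
    · intro t ht c hc
      rw [Finset.mem_filter] at ht
      rw [dot_nsmul, hn c hc]
      refine nsmul_congr_of_modEq (m := D) ?_ (hDv c hc)
      have h1 := congrArg (fun v : (ZMod D)ˣ => (v : ZMod D)) ht.2
      simp only [hw, ZMod.coe_unitOfCoprime] at h1
      rw [ZMod.unitsMap_val, ← ZMod.natCast_val] at h1
      exact (ZMod.natCast_eq_natCast_iff _ _ _).1 h1
  · refine Eventually.of_forall fun n t hmem => hmem ?_
    have h1 : Nat.Coprime (t : ZMod (m n * D)).val (m n) :=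
      Nat.Coprime.coprime_dvd_right (Dvd.intro _ rfl) (ZMod.val_coe_unit_coprime t)
    exact hH n _ h1

/-- **One parameter families.** If the orders of the points are not bounded, there is a direction
such that the sum of the sawtooth functions vanishes on the lines through all conjugates of the
points in this direction. -/
theorem exists_family (𝒰 : Ultrafilter ℕ) (m : ℕ → ℕ) [hm : ∀ n, NeZero (m n)]
    (α : ℕ → UnitAddTorus ι) (hα : ∀ n, m n • α n = 0)
    (hH : ∀ n, ∀ t : ℕ, Nat.Coprime t (m n) → ∑ i, sawR (t • α n i) = 0)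
    (hunb : ¬ ∀ i, ∃ D : ℕ, 0 < D ∧ ∀ᶠ n in (𝒰 : Filter ℕ), D • α n i = 0) :
    ∃ κ : ι → ℤ, κ ≠ 0 ∧ ∀ᶠ n in (𝒰 : Filter ℕ), ∀ t : ℕ, Nat.Coprime t (m n) →
      ∀ x : UnitAddCircle, (∀ i, t • α n i + κ i • x ≠ 0) →
        ∑ i, sawR (t • α n i + κ i • x) = 0 := by
  classical
  have hsingle : ∀ (i : ι) (y : UnitAddTorus ι), dot (Pi.single i 1) y = y i := by
    intro i y
    unfold dot
    rw [Finset.sum_eq_single i]
    · rw [Pi.single_eq_same, one_smul]
    · intro j _ hj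
      rw [Pi.single_eq_of_ne hj, zero_smul]
    · intro h
      exact absurd (Finset.mem_univ i) h
  obtain ⟨κ, hκ, horth⟩ := exists_direction (𝒰 := 𝒰) (α := α) (by
    by_contra hcon
    push Not at hcon
    apply hunb
    intro i
    obtain ⟨D, hD, h⟩ := hcon i
    refine ⟨D, hD, ?_⟩
    filter_upwards [h] with n hn
    rwa [hsingle] at hn)
  -- the common order of the values
  obtain ⟨n0, hn0⟩ := (eventually_all (𝒰 := 𝒰) (α := α)).exists
  have hDv : ∀ c ∈ Lam 𝒰 α, m n0 • val 𝒰 α c = 0 := by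
    intro c hc
    rw [← hn0 c hc, ← dot_nsmul, hα]
    unfold dot
    exact Finset.sum_eq_zero fun i _ => smul_zero _
  refine ⟨κ, hκ, ?_⟩
  filter_upwards [eventually_all (𝒰 := 𝒰) (α := α)] with n hn
  intro t ht x hx
  have hNe : NeZero (m n * m n0) := ⟨Nat.mul_ne_zero (NeZero.ne _) (NeZero.ne _)⟩
  obtain ⟨t', ht', htt⟩ := exists_coprime_lift (N := m n * m n0) (Dvd.intro _ rfl) ht
  have hco : Nat.Coprime t' (m n0) := Nat.Coprime.coprime_dvd_right (Dvd.intro_left _ rfl) ht'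
  have hteq : ∀ i, t' • α n i = t • α n i := fun i =>
    nsmul_congr_of_modEq htt (by
      have h1 := congrFun (hα n) i
      exact h1)
  refine sum_sawR_eq_zero 𝒰 m α hα hH (m n0) (Nat.pos_of_ne_zero (NeZero.ne _)) hDv t' hco
    (fun i => t • α n i + κ i • x) ?_ hx
  intro c hc
  rw [← hn c hc]
  unfold dot
  rw [Finset.smul_sum]
  have h1 : ∀ i, c i • (t • α n i + κ i • x) = t' • c i • α n i + (c i * κ i) • x := by
    intro i
    rw [smul_add, ← hteq i, smul_comm, mul_smul]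
  rw [Finset.sum_congr rfl fun i _ => h1 i, Finset.sum_add_distrib, ← Finset.sum_smul, horth c hc,
    zero_smul, add_zero]

end Pool.Agent.K4H27.FH
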