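import Mathlib

/-!
# Averages of characters over the Galois orbit of a torsion point of the circle
-/

namespace Pool.Agent.K4H27.FH

open Finset

/-- The standard character of the circle. -/
noncomputable def chi (y : UnitAddCircle) : ℂ := (AddCircle.toCircle y : ℂ)

lemma chi_zero : chi 0 = 1 := by
  unfold chi; simp [AddCircle.toCircle_zero]

lemma chi_add (x y : UnitAddCircle) : chi (x + y) = chi x * chi y := by
  unfold chi; rw [AddCircle.toCircle_add]; simp

lemma chi_nsmul (n : ℕ) (y : UnitAddCircle) : chi (n • y) = chi y ^ n := by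
  induction n with
  | zero => rw [zero_smul, chi_zero, pow_zero]
  | succ n ih => rw [add_smul, one_smul, chi_add, ih, pow_succ]

lemma norm_chi (y : UnitAddCircle) : ‖chi y‖ = 1 := by
  unfold chi; exact Circle.norm_coe _

lemma chi_eq_one {y : UnitAddCircle} (h : chi y = 1) : y = 0 := by
  unfold chi at h
  have h1 : AddCircle.toCircle y = 1 := by
    apply Subtype.ext
    rw [h]; rfl
  have h2 : AddCircle.toCircle y = AddCircle.toCircle (0 : UnitAddCircle) := by
    rw [h1, AddCircle.toCircle_zero]
  exact AddCircle.injective_toCircle one_ne_zero h2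

open ArithmeticFunction in
lemma sum_primitiveRoots_eq (q : ℕ) (hq : 0 < q) :
    ∑ z ∈ primitiveRoots q ℂ, z = ((ArithmeticFunction.moebius q : ℤ) : ℂ) := by
  induction q using Nat.strong_induction_on with
  | _ q ih =>
  have h1 : ∑ d ∈ q.divisors, ∑ z ∈ primitiveRoots d ℂ, z = if q = 1 then 1 else 0 := by
    have h2 : ∑ z ∈ Polynomial.nthRootsFinset q (1 : ℂ), z =
        ∑ d ∈ q.divisors, ∑ z ∈ primitiveRoots d ℂ, z := by
      classical
      rw [IsPrimitiveRoot.nthRoots_one_eq_biUnion_primitiveRoots, Finset.sum_biUnion]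
      intro a _ b _ hab
      exact IsPrimitiveRoot.disjoint hab
    rw [← h2]
    have hprim := Complex.isPrimitiveRoot_exp q hq.ne'
    split_ifs with h
    · subst h
      have h5 : Polynomial.nthRootsFinset 1 (1 : ℂ) = {1} := by
        ext z
        rw [Polynomial.mem_nthRootsFinset one_pos, pow_one, Finset.mem_singleton]
      rw [h5, Finset.sum_singleton]
    · have h3 : 1 < q := by omega
      have h4 := hprim.geom_sum_eq_zero h3
      rw [← h4]
      classical
      have h5 : Polynomial.nthRootsFinset q (1 : ℂ) =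
          (Finset.range q).image fun i => Complex.exp (2 * Real.pi * Complex.I / q) ^ i := by
        ext z
        rw [Polynomial.mem_nthRootsFinset hq, Finset.mem_image]
        constructor
        · intro hz
          have : NeZero q := ⟨hq.ne'⟩
          obtain ⟨i, hi, hi2⟩ := hprim.eq_pow_of_pow_eq_one hz
          exact ⟨i, Finset.mem_range.2 hi, hi2⟩
        · rintro ⟨i, _, rfl⟩
          rw [← pow_mul, mul_comm i q, pow_mul, hprim.pow_eq_one, one_pow]
      rw [h5, Finset.sum_image]
      intro i hi j hj hij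
      exact hprim.pow_inj (Finset.mem_range.1 hi) (Finset.mem_range.1 hj) hij
  have h2 : ∑ d ∈ q.divisors, ((ArithmeticFunction.moebius d : ℤ) : ℂ) = if q = 1 then 1 else 0 := by
    have h3 := congrArg (fun f : ArithmeticFunction ℤ => f q) ArithmeticFunction.coe_zeta_mul_moebius
    have h4 : ∑ d ∈ q.divisors, (ArithmeticFunction.moebius d : ℤ) = if q = 1 then 1 else 0 := by
      simp only [ArithmeticFunction.coe_zeta_mul_apply] at h3
      rw [h3, ArithmeticFunction.one_apply]
    rw [← Int.cast_sum, h4]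
    split_ifs <;> simp
  rw [← Nat.insert_self_properDivisors hq.ne', Finset.sum_insert Nat.self_notMem_properDivisors]
    at h1 h2
  have h3 : ∑ d ∈ q.properDivisors, ∑ z ∈ primitiveRoots d ℂ, z =
      ∑ d ∈ q.properDivisors, ((ArithmeticFunction.moebius d : ℤ) : ℂ) := by
    refine Finset.sum_congr rfl fun d hd => ?_
    rw [Nat.mem_properDivisors] at hd
    exact ih d hd.2 (Nat.pos_of_dvd_of_pos hd.1 hq)
  rw [h3] at h1
  exact add_right_cancel (h1.trans h2.symm)

lemma norm_sum_primitiveRoots_le (q : ℕ) (hq : 0 < q) :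
    ‖∑ z ∈ primitiveRoots q ℂ, z‖ ≤ 1 := by
  rw [sum_primitiveRoots_eq q hq]
  have h1 : |(ArithmeticFunction.moebius q : ℤ)| ≤ 1 := by
    by_cases h : ArithmeticFunction.moebius q = 0
    · rw [h]; simp
    · rcases ArithmeticFunction.moebius_ne_zero_iff_eq_or.1 h with h | h <;> rw [h] <;> simp
  rw [Complex.norm_intCast]
  exact_mod_cast h1

/-- The sum of the values of the standard character on the Galois orbit of a torsion point. -/
lemma norm_orbit_sum_le (N : ℕ) [NeZero N] (y : UnitAddCircle) (hy : N • y = 0) :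
    ‖∑ t : (ZMod N)ˣ, chi ((t : ZMod N).val • y)‖ * (addOrderOf y).totient ≤ N.totient := by
  classical
  have hN : 0 < N := Nat.pos_of_ne_zero (NeZero.ne N)
  set q := addOrderOf y with hq
  have hqN : q ∣ N := addOrderOf_dvd_of_nsmul_eq_zero hy
  have hq0 : 0 < q := Nat.pos_of_dvd_of_pos hqN hN
  have : NeZero q := ⟨hq0.ne'⟩
  have hprim : IsPrimitiveRoot (chi y) q := by
    refine IsPrimitiveRoot.mk_of_lt _ hq0 ?_ ?_
    · rw [← chi_nsmul, hq, addOrderOf_nsmul_eq_zero, chi_zero]
    · intro l hl hlq h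
      rw [← chi_nsmul] at h
      have h1 := chi_eq_one h
      exact absurd (Nat.le_of_dvd hl (addOrderOf_dvd_of_nsmul_eq_zero h1)) (not_le.2 hlq)
  -- the sum over the units modulo `q`
  have h1 : ∑ u : (ZMod q)ˣ, chi y ^ (u : ZMod q).val = ∑ z ∈ primitiveRoots q ℂ, z := by
    refine Finset.sum_bij (fun u _ => chi y ^ (u : ZMod q).val) ?_ ?_ ?_ ?_
    · intro u _
      rw [mem_primitiveRoots hq0]
      exact hprim.pow_of_coprime _ (ZMod.val_coe_unit_coprime u)
    · intro u _ v _ huv
      have h2 := hprim.pow_inj (ZMod.val_lt _) (ZMod.val_lt _) huv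
      exact Units.ext (ZMod.val_injective q h2)
    · intro z hz
      rw [mem_primitiveRoots hq0] at hz
      obtain ⟨i, hi, hc, rfl⟩ := (hprim.isPrimitiveRoot_iff).1 hz
      refine ⟨ZMod.unitOfCoprime i hc, Finset.mem_univ _, ?_⟩
      rw [ZMod.coe_unitOfCoprime, ZMod.val_natCast, Nat.mod_eq_of_lt hi]
    · intro u _
      rfl
  have h2 : ∀ t : (ZMod N)ˣ, chi ((t : ZMod N).val • y) =
      chi y ^ ((ZMod.unitsMap hqN t : (ZMod q)ˣ) : ZMod q).val := by
    intro t
    rw [chi_nsmul, ZMod.unitsMap_val, ← ZMod.natCast_val, ZMod.val_natCast]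
    conv_lhs => rw [← Nat.div_add_mod (t : ZMod N).val q, pow_add, pow_mul, hprim.pow_eq_one,
      one_pow, one_mul]
  have hsurj := ZMod.unitsMap_surjective hqN
  -- the fibres
  have hcard : ∀ u : (ZMod q)ˣ, (Finset.univ.filter fun t : (ZMod N)ˣ =>
      ZMod.unitsMap hqN t = u).card * q.totient = N.totient := by
    intro u
    have h3 : ∀ v : (ZMod q)ˣ, (Finset.univ.filter fun t : (ZMod N)ˣ =>
        ZMod.unitsMap hqN t = v).card = (Finset.univ.filter fun t : (ZMod N)ˣ =>
        ZMod.unitsMap hqN t = u).card := by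
      intro v
      obtain ⟨v', rfl⟩ := hsurj v
      obtain ⟨u', rfl⟩ := hsurj u
      exact MonoidHom.card_fiber_eq_of_mem_range _ ⟨v', rfl⟩ ⟨u', rfl⟩
    have h4 : (Finset.univ : Finset (ZMod N)ˣ).card = ∑ v : (ZMod q)ˣ,
        (Finset.univ.filter fun t : (ZMod N)ˣ => ZMod.unitsMap hqN t = v).card :=
      Finset.card_eq_sum_card_fiberwise (fun t _ => Finset.mem_univ _)
    rw [Finset.sum_congr rfl fun v _ => h3 v, Finset.sum_const, Finset.card_univ,
      Finset.card_univ, ZMod.card_units_eq_totient, ZMod.card_units_eq_totient, smul_eq_mul,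
      mul_comm] at h4
    exact h4.symm
  have h3 : (∑ t : (ZMod N)ˣ, chi ((t : ZMod N).val • y)) * (q.totient : ℂ) =
      (N.totient : ℂ) * ∑ z ∈ primitiveRoots q ℂ, z := by
    rw [← h1, Finset.sum_congr rfl fun t _ => h2 t]
    rw [← Finset.sum_fiberwise_of_maps_to (s := Finset.univ) (t := Finset.univ)
      (g := fun t : (ZMod N)ˣ => ZMod.unitsMap hqN t) (fun t _ => Finset.mem_univ _)]
    rw [Finset.sum_mul, Finset.mul_sum]
    refine Finset.sum_congr rfl fun u _ => ?_
    rw [← hcard u]
    have h5 : ∑ t ∈ Finset.univ.filter (fun t : (ZMod N)ˣ => ZMod.unitsMap hqN t = u),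
        chi y ^ ((ZMod.unitsMap hqN t : (ZMod q)ˣ) : ZMod q).val =
        ((Finset.univ.filter (fun t : (ZMod N)ˣ => ZMod.unitsMap hqN t = u)).card : ℂ) *
          chi y ^ (u : ZMod q).val := by
      rw [← nsmul_eq_mul, ← Finset.sum_const]
      refine Finset.sum_congr rfl fun t ht => ?_
      rw [(Finset.mem_filter.1 ht).2]
    rw [h5]
    push_cast
    ring
  have h4 := congrArg norm h3
  rw [norm_mul, norm_mul, Complex.norm_natCast, Complex.norm_natCast] at h4
  rw [h4]
  have h5 := norm_sum_primitiveRoots_le q hq0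
  nlinarith [(Nat.cast_nonneg N.totient : (0 : ℝ) ≤ N.totient)]

/-- The totient of large numbers is large. -/
lemma totient_large (B : ℕ) : ∃ Q : ℕ, ∀ q : ℕ, Q < q → B < q.totient := by
  refine ⟨∏ p ∈ Finset.range (2 * B + 3), p.succ ^ (2 * B + 3), fun q hq => ?_⟩
  by_contra hcon
  rw [not_lt] at hcon
  have hq0 : q ≠ 0 := by omega
  -- all prime powers dividing `q` are small
  have h1 : ∀ p ∈ q.primeFactors, p ^ q.factorization p ≤ 2 * B := by
    intro p hp
    have hpp := Nat.prime_of_mem_primeFactors hp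
    have hdvd : p ^ q.factorization p ∣ q := Nat.ordProj_dvd q p
    have hf : 0 < q.factorization p :=
      hpp.factorization_pos_of_dvd hq0 (Nat.dvd_of_mem_primeFactors hp)
    have h2 := Nat.totient_dvd_of_dvd hdvd
    have h3 := Nat.le_of_dvd (Nat.totient_pos.2 (Nat.pos_of_ne_zero hq0)) h2
    rw [Nat.totient_prime_pow hpp hf] at h3
    have h4 : p ^ q.factorization p = p ^ (q.factorization p - 1) * p := by
      rw [← pow_succ]; congr 1; omega
    rw [h4]
    have h5 : p ≤ 2 * (p - 1) := by have := hpp.two_le; omega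
    calc p ^ (q.factorization p - 1) * p ≤ p ^ (q.factorization p - 1) * (2 * (p - 1)) :=
          Nat.mul_le_mul_left _ h5
      _ = 2 * (p ^ (q.factorization p - 1) * (p - 1)) := by ring
      _ ≤ 2 * B := Nat.mul_le_mul_left _ (h3.trans hcon)
  have h2 : q ∣ ∏ p ∈ Finset.range (2 * B + 3), p.succ ^ (2 * B + 3) := by
    rw [← Nat.prod_factorization_pow_eq_self hq0]
    unfold Finsupp.prod
    rw [Nat.support_factorization]
    have hsub : q.primeFactors ⊆ (Finset.range (2 * B + 3)).image Nat.succ := by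
      intro p hp
      have hpp := Nat.prime_of_mem_primeFactors hp
      have hf : 0 < q.factorization p :=
        hpp.factorization_pos_of_dvd hq0 (Nat.dvd_of_mem_primeFactors hp)
      have h3 : p ≤ p ^ q.factorization p := Nat.le_self_pow hf.ne' p
      have h4 := h1 p hp
      rw [Finset.mem_image]
      refine ⟨p - 1, Finset.mem_range.2 (by omega), ?_⟩
      have := hpp.two_le
      omega
    have h3 : ∏ p ∈ Finset.range (2 * B + 3), p.succ ^ (2 * B + 3) =
        ∏ p ∈ (Finset.range (2 * B + 3)).image Nat.succ, p ^ (2 * B + 3) := by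
      rw [Finset.prod_image]
      intro a _ b _ hab
      exact Nat.succ_injective hab
    rw [h3]
    refine dvd_trans (Finset.prod_dvd_prod_of_dvd _ (fun p => p ^ (2 * B + 3)) ?_)
      (Finset.prod_dvd_prod_of_subset _ _ _ hsub)
    intro p hp
    apply pow_dvd_pow
    have h4 := h1 p hp
    have hpp := Nat.prime_of_mem_primeFactors hp
    have h5 : q.factorization p < p ^ q.factorization p := Nat.lt_pow_self hpp.one_lt
    omega
  have h3 := Nat.le_of_dvd (Finset.prod_pos fun p _ => pow_pos (Nat.succ_pos p) _) h2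
  omega

end Pool.Agent.K4H27.FH
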