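import Pool.Agent.K4H27.FH.Blocks
import Pool.Agent.H916R2.Relations

/-!
# The structure theorem
-/

namespace Pool.Agent.K4H27.FH

open Finset Pool.Agent.H916R2

lemma toAddCircle_iota {m L : ℕ} [NeZero m] [NeZero (L * m)] (hL : 0 < L) (a : ZMod m) :
    ZMod.toAddCircle (iota L a : ZMod (L * m)) = ZMod.toAddCircle a := by
  have hL' : (0 : ℝ) < L := by exact_mod_cast hL
  have hm : (0 : ℝ) < m := by exact_mod_cast NeZero.pos m
  unfold iota
  rw [ZMod.toAddCircle_natCast, ZMod.toAddCircle_apply]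
  congr 1
  push_cast
  field_simp

/-- One block. -/
theorem step {ι : Type} [Fintype ι] [DecidableEq ι] {m L : ℕ} [NeZero m] (hL : 0 < L)
    (a : ι → ZMod m) (I : Finset ι) (ha : ∀ i ∈ I, a i ≠ 0) (κ : ι → ℤ)
    (hκL : ∀ i, κ i ≠ 0 → (κ i) ∣ (L : ℤ))
    (hx : ∀ x : UnitAddCircle, (∀ i ∈ I, ZMod.toAddCircle (a i) + κ i • x ≠ 0) →
        ∑ i ∈ I, sawR (ZMod.toAddCircle (a i) + κ i • x) = 0) :
    ∃ e : ι → ℤ, (∀ i ∈ I.filter (fun i => κ i ≠ 0), e i ≠ 0 ∧ |e i| ≤ L) ∧
      (∀ i ∈ I.filter (fun i => κ i ≠ 0), ∃ j ∈ I.filter (fun i => κ i ≠ 0), j ≠ i ∧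
        (e j : ZMod m) * a j = (e i : ZMod m) * a i) ∧
      (∀ i ∈ I.filter (fun i => κ i ≠ 0), ∀ j ∈ I.filter (fun i => κ i ≠ 0), j ≠ i →
        (e j : ZMod m) * a j = (e i : ZMod m) * a i →
        (∀ l ∈ I.filter (fun i => κ i ≠ 0), (e l : ZMod m) * a l = (e i : ZMod m) * a i →
          l = i ∨ l = j) → a j = - a i) ∧
      (∀ (Q : Type) [AddCommGroup Q] (c : ZMod (L * m) → Q), OddDist c →
        ∑ i ∈ I.filter (fun i => κ i ≠ 0), c (iota L (a i)) = 0) := by
  classical
  have hm : 0 < m := NeZero.pos m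
  have hNe : NeZero (L * m) := ⟨Nat.mul_ne_zero hL.ne' hm.ne'⟩
  set N := L * m with hNdef
  set b : ι → ZMod N := fun i => iota L (a i) with hb
  have hb0 : ∀ i ∈ I, b i ≠ 0 := fun i hi h => ha i hi (iota_eq_zero rfl h)
  have hj := jump I b hb0 κ (by
    intro x hne
    have h1 := hx x (by
      intro i hi
      rw [← toAddCircle_iota hL (a i)]
      exact hne i hi)
    rw [← h1]
    refine Finset.sum_congr rfl fun i _ => ?_
    rw [hb, ← toAddCircle_iota hL (a i)])
  choose! e he using hκL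
  -- e i = L / κ i
  have he0 : ∀ i, κ i ≠ 0 → e i ≠ 0 := by
    intro i hi h
    have h1 := he i hi
    rw [h, mul_zero] at h1
    omega
  have hLm : ((L : ℤ) : ZMod N) * ((m : ℤ) : ZMod N) = 0 := by
    have h1 : ((L * m : ℕ) : ZMod N) = 0 := by rw [← hNdef]; simp
    push_cast at h1 ⊢
    exact h1
  have hθ : ∀ i, κ i ≠ 0 → ∀ s : ℤ,
      (κ i : ZMod N) * ((e i * ((a i).val + m * s) : ℤ) : ZMod N) = b i := by
    intro i hi s
    have h1 : (κ i : ZMod N) * (e i : ZMod N) = ((L : ℤ) : ZMod N) := by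
      rw [he i hi]; push_cast; rfl
    have h2 : b i = ((L : ℤ) : ZMod N) * (((a i).val : ℤ) : ZMod N) := by
      rw [hb]; unfold iota; push_cast; rfl
    rw [h2]
    push_cast at h1 hLm ⊢
    linear_combination (((a i).val : ZMod N) + (m : ZMod N) * (s : ZMod N)) * h1 +
      (s : ZMod N) * hLm
  have hkey : ∀ i ∈ I.filter (fun i => κ i ≠ 0), ∀ s : ℤ, ∃ j ∈ I.filter (fun i => κ i ≠ 0),
      SignType.sign (κ j) = - SignType.sign (κ i) ∧
        (e j * m : ℤ) ∣ e i * ((a i).val + m * s) - e j * (a j).val := by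
    intro i hi s
    rw [mem_filter] at hi
    set θ : ZMod N := ((e i * ((a i).val + m * s) : ℤ) : ZMod N) with hθdef
    have h1 := hj θ
    have h2 := hθ i hi.2 s
    rw [← hθdef] at h2
    have h3 : ∃ j ∈ I, (κ j : ZMod N) * θ = b j ∧ SignType.sign (κ j) = - SignType.sign (κ i) := by
      by_contra hcon
      push Not at hcon
      have h4 : ∑ j ∈ I, (SignType.sign (κ i) : ℤ) * (if (κ j : ZMod N) * θ = b j then
          (SignType.sign (κ j) : ℤ) else 0) = 0 := by
        rw [← Finset.mul_sum, h1, mul_zero]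
      have h5 : ∀ j ∈ I, 0 ≤ (SignType.sign (κ i) : ℤ) * (if (κ j : ZMod N) * θ = b j then
          (SignType.sign (κ j) : ℤ) else 0) := by
        intro j hjI
        by_cases h6 : (κ j : ZMod N) * θ = b j
        · rw [if_pos h6]
          have h7 := hcon j hjI h6
          revert h7
          generalize SignType.sign (κ j) = u
          generalize SignType.sign (κ i) = v
          revert u v
          decide
        · rw [if_neg h6, mul_zero]
      have h6 := (Finset.sum_eq_zero_iff_of_nonneg h5).1 h4 i hi.1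
      rw [if_pos h2] at h6
      have h7 : SignType.sign (κ i) ≠ 0 := by
        rw [Ne, sign_eq_zero_iff]; exact hi.2
      revert h6 h7
      generalize SignType.sign (κ i) = v
      revert v
      decide
    obtain ⟨j, hjI, h4, h5⟩ := h3
    have hκj : κ j ≠ 0 := by
      intro h
      rw [h, sign_zero] at h5
      have h7 : SignType.sign (κ i) ≠ 0 := by
        rw [Ne, sign_eq_zero_iff]; exact hi.2
      revert h5 h7
      generalize SignType.sign (κ i) = v
      revert v
      decide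
    refine ⟨j, mem_filter.2 ⟨hjI, hκj⟩, h5, ?_⟩
    have h6 := hθ j hκj 0
    have h7 : ((κ j * (e i * ((a i).val + m * s) - e j * (a j).val) : ℤ) : ZMod N) = 0 := by
      rw [hθdef] at h4
      have h8 : (κ j : ZMod N) * ((e i * ((a i).val + m * s) : ℤ) : ZMod N) =
          (κ j : ZMod N) * ((e j * ((a j).val + m * 0) : ℤ) : ZMod N) := by rw [h4, h6]
      push_cast at h8 ⊢
      linear_combination h8
    rw [ZMod.intCast_zmod_eq_zero_iff_dvd] at h7
    have h8 : ((N : ℕ) : ℤ) = κ j * (e j * m) := by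
      rw [hNdef]; push_cast; rw [he j hκj]; ring
    rw [h8] at h7
    exact Int.dvd_of_mul_dvd_mul_left hκj h7
  -- congruence modulo m
  have hmod : ∀ i j : ι, ∀ s : ℤ, (e j * m : ℤ) ∣ e i * ((a i).val + m * s) - e j * (a j).val →
      (e j : ZMod m) * a j = (e i : ZMod m) * a i := by
    intro i j s h
    have h1 : (m : ℤ) ∣ e i * ((a i).val + m * s) - e j * (a j).val :=
      (Dvd.intro_left _ rfl).trans h
    rw [← ZMod.intCast_zmod_eq_zero_iff_dvd] at h1
    push_cast at h1
    rw [ZMod.natCast_zmod_val, ZMod.natCast_zmod_val, ZMod.natCast_self] at h1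
    linear_combination -h1
  have hsne : ∀ i j : ι, κ i ≠ 0 → SignType.sign (κ j) = - SignType.sign (κ i) → j ≠ i := by
    intro i j hi h1 h2
    rw [h2] at h1
    have h7 : SignType.sign (κ i) ≠ 0 := by
      rw [Ne, sign_eq_zero_iff]; exact hi
    revert h1 h7
    generalize SignType.sign (κ i) = v
    revert v
    decide
  -- classes of size two
  have hdiv : ∀ i ∈ I.filter (fun i => κ i ≠ 0), ∀ j ∈ I.filter (fun i => κ i ≠ 0), j ≠ i →
        (∀ l ∈ I.filter (fun i => κ i ≠ 0), (e l : ZMod m) * a l = (e i : ZMod m) * a i →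
          l = i ∨ l = j) → SignType.sign (κ j) = - SignType.sign (κ i) ∧ e j ∣ e i ∧
            (e j * m : ℤ) ∣ e i * (a i).val - e j * (a j).val := by
    intro i hi j hj' hne hcl
    have hfind : ∀ s : ℤ, SignType.sign (κ j) = - SignType.sign (κ i) ∧
        (e j * m : ℤ) ∣ e i * ((a i).val + m * s) - e j * (a j).val := by
      intro s
      obtain ⟨l, hl, h1, h2⟩ := hkey i hi s
      have h3 := hcl l hl (hmod i l s h2)
      rcases h3 with h3 | h3
      · exact absurd h3 (hsne i l (mem_filter.1 hi).2 h1)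
      · subst h3
        exact ⟨h1, h2⟩
    obtain ⟨h1, h2⟩ := hfind 0
    obtain ⟨_, h3⟩ := hfind 1
    have h4 : (e j * m : ℤ) ∣ e i * m := by
      have h5 := Int.dvd_sub h3 h2
      have h6 : e i * ((a i).val + m * 1) - e j * (a j).val -
          (e i * ((a i).val + m * 0) - e j * (a j).val) = e i * m := by ring
      rwa [h6] at h5
    refine ⟨h1, ?_, ?_⟩
    · exact Int.dvd_of_mul_dvd_mul_right (by exact_mod_cast hm.ne') h4
    · simpa using h2
  refine ⟨e, ?_, ?_, ?_, ?_⟩
  · intro i hi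
    have hi2 := (mem_filter.1 hi).2
    refine ⟨he0 i hi2, ?_⟩
    exact Int.le_of_dvd (by exact_mod_cast hL) ((abs_dvd _ _).2 (Dvd.intro_left _ (he i hi2).symm))
  · intro i hi
    obtain ⟨j, hj', h1, h2⟩ := hkey i hi 0
    exact ⟨j, hj', hsne i j (mem_filter.1 hi).2 h1, hmod i j 0 h2⟩
  · intro i hi j hj' hne hij hcl
    obtain ⟨h1, h2, h3⟩ := hdiv i hi j hj' hne hcl
    obtain ⟨h4, h5, h6⟩ := hdiv j hj' i hi hne.symm (by
      intro l hl h
      rw [hij] at h
      exact (hcl l hl h).symm)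
    have hei := he0 i (mem_filter.1 hi).2
    -- e j = - e i
    have h7 : e j = - e i := by
      have h8 : (e j).natAbs = (e i).natAbs :=
        Nat.dvd_antisymm (Int.natAbs_dvd_natAbs.2 h2) (Int.natAbs_dvd_natAbs.2 h5)
      rcases Int.natAbs_eq_natAbs_iff.1 h8 with h9 | h9
      · exfalso
        have h10 := he i (mem_filter.1 hi).2
        have h11 := he j (mem_filter.1 hj').2
        rw [h9] at h11
        have h12 : κ i = κ j := by
          have h13 : κ i * e i = κ j * e i := by rw [← h10, ← h11]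
          exact mul_right_cancel₀ hei h13
        exact hsne i j (mem_filter.1 hi).2 h1 (by
          exfalso
          rw [h12] at h1
          have h14 : SignType.sign (κ j) ≠ 0 := by
            rw [Ne, sign_eq_zero_iff]; exact (mem_filter.1 hj').2
          revert h1 h14
          generalize SignType.sign (κ j) = v
          revert v
          decide)
      · exact h9
    rw [h7] at h3
    have h8 : (m : ℤ) ∣ (a i).val + (a j).val := by
      have h9 : (-e i * m : ℤ) ∣ (-e i) * (-((a i).val + (a j).val)) := by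
        have h10 : e i * ((a i).val : ℤ) - -e i * ((a j).val : ℤ) =
            (-e i) * (-((a i).val + (a j).val)) := by ring
        rwa [h10] at h3
      have h11 := Int.dvd_of_mul_dvd_mul_left (neg_ne_zero.2 hei) h9
      exact (dvd_neg.1 h11)
    rw [← ZMod.intCast_zmod_eq_zero_iff_dvd] at h8
    push_cast at h8
    rw [ZMod.natCast_zmod_val, ZMod.natCast_zmod_val] at h8
    exact (neg_eq_of_add_eq_zero_right h8).symm
  · intro Q _ c hc
    refine block_sum I b κ hj ?_ hc
    intro i hi hκi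
    refine ⟨?_, _, hθ i hκi 0⟩
    have h1 : (κ i).natAbs ∣ L := by
      have h2 := Int.natAbs_dvd_natAbs.2 (Dvd.intro _ (he i hκi).symm)
      simpa using h2
    exact h1.mul_right m

/-- The block structure of a tuple of residues: `J` is the union of the blocks, two entries are in
the same class if `g` agrees. -/
structure Blocks {ι : Type} {m : ℕ} (L : ℕ) (a : ι → ZMod m) (I J : Finset ι) (e : ι → ℤ)
    (g : ι → ℕ × ZMod m) : Prop where
  sub : J ⊆ I
  e0 : ∀ i ∈ J, e i ≠ 0
  eL : ∀ i ∈ J, |e i| ≤ L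
  g2 : ∀ i ∈ J, (g i).2 = (e i : ZMod m) * a i
  two : ∀ i ∈ J, ∃ j ∈ J, j ≠ i ∧ g j = g i
  pair : ∀ i ∈ J, ∀ j ∈ J, j ≠ i → g j = g i → (∀ l ∈ J, g l = g i → l = i ∨ l = j) →
    a j = - a i
  tors : ∀ i ∈ I, i ∉ J → L • a i = 0
  dist : ∀ (Q : Type) [AddCommGroup Q] (c : ZMod (L * m) → Q), OddDist c →
    ∑ i ∈ J, c (iota L (a i)) = 0

lemma oddDist_saw {N : ℕ} [NeZero N] (t : (ZMod N)ˣ) :
    OddDist (fun x : ZMod N => saw ((t : ZMod N) * x)) where
  neg := fun a => by rw [mul_neg, saw_neg]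
  half := fun a h => by
    apply saw_half
    rw [← mul_add, h, mul_zero]
  dist := fun p d _ hpd a => saw_dist_unit hpd t a

/-- sums over blocks vanish for the conjugates of the sawtooth function -/
lemma saw_of_dist {ι : Type} {m L : ℕ} [NeZero m] (hL : 0 < L) (a : ι → ZMod m) (J : Finset ι)
    (h : ∀ (Q : Type) [AddCommGroup Q] (c : ZMod (L * m) → Q), OddDist c →
      ∑ i ∈ J, c (iota L (a i)) = 0) (t : (ZMod m)ˣ) : ∑ i ∈ J, saw ((t : ZMod m) * a i) = 0 := by
  have hNe : NeZero (L * m) := ⟨Nat.mul_ne_zero hL.ne' (NeZero.ne m)⟩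
  obtain ⟨t', ht'⟩ := ZMod.unitsMap_surjective (Dvd.intro_left L rfl : m ∣ L * m) t
  have h1 := h ℤ _ (oddDist_saw t')
  have h2 : ∀ i, saw ((t' : ZMod (L * m)) * iota L (a i)) = L * saw ((t : ZMod m) * a i) := by
    intro i
    rw [unit_iota rfl, saw_iota rfl]
    congr 3
    exact congrArg Units.val ht'
  rw [Finset.sum_congr rfl fun i _ => h2 i, ← Finset.mul_sum] at h1
  rcases mul_eq_zero.1 h1 with h3 | h3
  · exfalso
    have h4 : L = 0 := by exact_mod_cast h3
    omega
  · exact h3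

/-- **The structure theorem.** -/
theorem exists_blocks (ι : Type) [Fintype ι] [DecidableEq ι] : ∃ L : ℕ, 0 < L ∧ 2 ∣ L ∧
    ∀ (m : ℕ) [NeZero m] (a : ι → ZMod m) (I : Finset ι), (∀ i ∈ I, a i ≠ 0) →
    (∀ t : (ZMod m)ˣ, ∑ i ∈ I, saw ((t : ZMod m) * a i) = 0) →
    ∃ (J : Finset ι) (e : ι → ℤ) (g : ι → ℕ × ZMod m), Blocks L a I J e g := by
  classical
  obtain ⟨M, hM, hfam⟩ := family_or_torsion' ι
  refine ⟨(M + 1).factorial, Nat.factorial_pos _, Nat.dvd_factorial two_pos (by omega), ?_⟩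
  intro m _ a I
  induction hn : I.card using Nat.strong_induction_on generalizing I with
  | _ n ih =>
  intro ha hH
  rcases hfam m a I hH with h | ⟨κ, ⟨i0, hi0⟩, hκI, hκM, hx⟩
  · refine ⟨∅, fun _ => 1, fun _ => (0, 0), Finset.empty_subset _, by simp, by simp, by simp,
      by simp, by simp, ?_, by simp⟩
    intro i hi _
    obtain ⟨q, hq⟩ := Nat.dvd_factorial hM (Nat.le_succ M)
    rw [hq, mul_comm, mul_smul, h i hi, smul_zero]
  · have hκL : ∀ i, κ i ≠ 0 → κ i ∣ ((M + 1).factorial : ℤ) := by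
      intro i hi
      have h1 : (κ i).natAbs ∣ (M + 1).factorial := by
        apply Nat.dvd_factorial (Int.natAbs_pos.2 hi)
        have h2 := hκM i
        rw [Int.abs_eq_natAbs] at h2
        have h3 : (κ i).natAbs ≤ M := by exact_mod_cast h2
        omega
      exact Int.natAbs_dvd_natAbs.1 (by simpa using h1)
    obtain ⟨e1, he1, htwo1, hpair1, hdist1⟩ := step (Nat.factorial_pos (M + 1)) a I ha κ hκL hx
    set J1 := I.filter (fun i => κ i ≠ 0) with hJ1
    have hJ1I : J1 ⊆ I := Finset.filter_subset _ _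
    have hJ1ne : i0 ∈ J1 := mem_filter.2 ⟨hκI i0 hi0, hi0⟩
    have hcard : (I \ J1).card < n := by
      rw [← hn]
      apply Finset.card_lt_card
      rw [Finset.ssubset_iff_of_subset (Finset.sdiff_subset)]
      exact ⟨i0, hκI i0 hi0, fun h => (Finset.mem_sdiff.1 h).2 hJ1ne⟩
    obtain ⟨J2, e2, g2, hB⟩ := ih _ hcard (I \ J1) rfl
      (fun i hi => ha i (Finset.mem_sdiff.1 hi).1) (by
      intro t
      have h1 := hH t
      rw [← Finset.sum_sdiff hJ1I, saw_of_dist (Nat.factorial_pos (M + 1)) a J1 hdist1 t, add_zero] at h1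
      exact h1)
    have hdisj : Disjoint J1 J2 := by
      rw [Finset.disjoint_left]
      intro i h1 h2
      exact (Finset.mem_sdiff.1 (hB.sub h2)).2 h1
    have hJ2n : ∀ i ∈ J2, i ∉ J1 := fun i h2 h1 => (Finset.disjoint_left.1 hdisj) h1 h2
    set e : ι → ℤ := fun i => if i ∈ J1 then e1 i else e2 i with he
    set g : ι → ℕ × ZMod m := fun i =>
      if i ∈ J1 then (0, (e1 i : ZMod m) * a i) else ((g2 i).1 + 1, (g2 i).2) with hg
    have hg1 : ∀ i ∈ J1, g i = (0, (e1 i : ZMod m) * a i) := fun i hi => by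
      rw [hg]; exact if_pos hi
    have hg2 : ∀ i ∈ J2, g i = ((g2 i).1 + 1, (g2 i).2) := fun i hi => by
      rw [hg]; exact if_neg (hJ2n i hi)
    have he1' : ∀ i ∈ J1, e i = e1 i := fun i hi => by rw [he]; exact if_pos hi
    have he2' : ∀ i ∈ J2, e i = e2 i := fun i hi => by rw [he]; exact if_neg (hJ2n i hi)
    have hg22 : ∀ i ∈ J2, ∀ j ∈ J2, g j = g i ↔ g2 j = g2 i := by
      intro i hi j hj
      rw [hg2 i hi, hg2 j hj, Prod.mk.injEq, Prod.ext_iff, add_left_inj]
    have hg11 : ∀ i ∈ J1, ∀ j ∈ J1, g j = g i ↔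
        (e1 j : ZMod m) * a j = (e1 i : ZMod m) * a i := by
      intro i hi j hj
      rw [hg1 i hi, hg1 j hj, Prod.mk.injEq]
      simp
    have hg12 : ∀ i ∈ J1, ∀ j ∈ J2, g j ≠ g i := by
      intro i hi j hj h
      rw [hg1 i hi, hg2 j hj, Prod.mk.injEq] at h
      exact absurd h.1 (Nat.succ_ne_zero _)
    refine ⟨J1 ∪ J2, e, g, ?_, ?_, ?_, ?_, ?_, ?_, ?_, ?_⟩
    · exact Finset.union_subset hJ1I (hB.sub.trans Finset.sdiff_subset)
    · intro i hi
      rcases Finset.mem_union.1 hi with h | h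
      · rw [he1' i h]; exact (he1 i h).1
      · rw [he2' i h]; exact hB.e0 i h
    · intro i hi
      rcases Finset.mem_union.1 hi with h | h
      · rw [he1' i h]; exact (he1 i h).2
      · rw [he2' i h]; exact hB.eL i h
    · intro i hi
      rcases Finset.mem_union.1 hi with h | h
      · rw [he1' i h, hg1 i h]
      · rw [he2' i h, hg2 i h]; exact hB.g2 i h
    · intro i hi
      rcases Finset.mem_union.1 hi with h | h
      · obtain ⟨j, hj, h1, h2⟩ := htwo1 i h
        exact ⟨j, Finset.mem_union_left _ hj, h1, (hg11 i h j hj).2 h2⟩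
      · obtain ⟨j, hj, h1, h2⟩ := hB.two i h
        exact ⟨j, Finset.mem_union_right _ hj, h1, (hg22 i h j hj).2 h2⟩
    · intro i hi j hj hne hij hcl
      rcases Finset.mem_union.1 hi with h | h
      · rcases Finset.mem_union.1 hj with h' | h'
        · refine hpair1 i h j h' hne ((hg11 i h j h').1 hij) ?_
          intro l hl hll
          exact hcl l (Finset.mem_union_left _ hl) ((hg11 i h l hl).2 hll)
        · exact absurd hij (hg12 i h j h')
      · rcases Finset.mem_union.1 hj with h' | h'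
        · exact absurd hij.symm (hg12 j h' i h)
        · refine hB.pair i h j h' hne ((hg22 i h j h').1 hij) ?_
          intro l hl hll
          exact hcl l (Finset.mem_union_right _ hl) ((hg22 i h l hl).2 hll)
    · intro i hi hiJ
      rw [Finset.mem_union, not_or] at hiJ
      exact hB.tors i (Finset.mem_sdiff.2 ⟨hi, hiJ.1⟩) hiJ.2
    · intro Q _ c hc
      rw [Finset.sum_union hdisj, hdist1 Q c hc, hB.dist Q c hc, add_zero]

end Pool.Agent.K4H27.FH
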